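import Pool.Agent.P.MP_38bfeb_an.Green
import Pool.Agent.P.MP_0afb51_an.Fixed

/-!
The fixed point in the critical space.
-/

namespace Pool.Agent.P.MP_38bfeb_an

open Complex Set Filter Topology MeasureTheory BoundedContinuousFunction Pool.Agent.P.MP_0afb51_an
open scoped ComplexConjugate

noncomputable def DuhR (L : ℝ) (H : ℂ → ℝ → ℂ) (z : ℂ) (τ : ℝ) : ℂ :=
  z ^ 2 / QQ L z * (yR L τ z * J1 H z τ + ss τ z * J2 L H z τ)

noncomputable def DuhRd (L : ℝ) (H : ℂ → ℝ → ℂ) (z : ℂ) (τ : ℝ) : ℂ :=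
  z ^ 2 / QQ L z * (yRd L τ z * J1 H z τ + cc τ z * J2 L H z τ)

noncomputable def linR (L : ℝ) (φ : ℂ → ℂ) (z : ℂ) (τ : ℝ) : ℂ := φ z * (yR L τ z / QQ L z)

noncomputable def linRd (L : ℝ) (φ : ℂ → ℂ) (z : ℂ) (τ : ℝ) : ℂ := φ z * (yRd L τ z / QQ L z)

/-- The constant in the estimates of the Green operator. -/
noncomputable def CR (L K : ℝ) : ℝ := 12 * Real.exp (3 * L + 5) * K + 2 * K * (K + 1)

/-- The constant in the estimate of the linear part. -/
noncomputable def CL (L K : ℝ) : ℝ := K * ((1 + L) * Real.exp (2 * L + 4))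

variable {L η K M ε : ℝ} {H : ℂ → ℝ → ℂ} {φ : ℂ → ℂ}

theorem DuhR_bound (hK : KR L η K) (hH : BW 1 M H) {z : ℂ} (hz : |z.im| ≤ η) {τ : ℝ}
    (hτ : τ ∈ Ioc 0 L) : ‖DuhR L H z τ‖ ≤ CR L K * M * WW z.re τ := by
  have hKp := hK.K_pos
  have hM := hH.nonneg
  have hW := WW_pos z.re hτ.1
  refine (green_bound hK hH hz hτ hKp.le hKp.le (hK.bR z hz τ ⟨hτ.1.le, hτ.2⟩)
    (hK.bs z hz τ ⟨hτ.1.le, hτ.2⟩)).trans ?_
  unfold CR
  gcongr
  linarith

theorem DuhRd_bound (hK : KR L η K) (hH : BW 1 M H) {z : ℂ} (hz : |z.im| ≤ η) {τ : ℝ}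
    (hτ : τ ∈ Ioc 0 L) : ‖DuhRd L H z τ‖ ≤ CR L K * M * (1 + |z.re|) ^ 2 * WW z.re τ := by
  have hKp := hK.K_pos
  have hM := hH.nonneg
  have hW := WW_pos z.re hτ.1
  have hB : ‖z ^ 2 * cc τ z‖ ≤ (1 + |z.re|) ^ 2 * Real.exp ((lam z).re * τ) := by
    have h1 := norm_le_one_add (hz.trans hK.eta_le)
    have h2 := norm_cc_le z hτ.1.le
    rw [norm_mul, norm_pow]
    gcongr
  refine (green_bound hK hH hz hτ (by positivity) (by positivity)
    (hK.dR z hz τ ⟨hτ.1.le, hτ.2⟩) hB).trans ?_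
  calc (12 * Real.exp (3 * L + 5) * (K * (1 + |z.re|) ^ 2) + 2 * K * (1 + |z.re|) ^ 2) * M *
        WW z.re τ
      = (12 * Real.exp (3 * L + 5) * K + 2 * K * 1) * M * (1 + |z.re|) ^ 2 * WW z.re τ := by ring
    _ ≤ _ := by
      unfold CR
      gcongr
      linarith

theorem linR_aux (hL : 1 ≤ L) (hK : KR L η K) {z : ℂ} (hz : |z.im| ≤ η) (hε : 0 ≤ ε)
    (hφ : ‖φ z‖ ≤ ε * (1 + |z.re|)) {τ : ℝ} (hτ : τ ∈ Ioc 0 L) {B : ℂ} {β : ℝ} (hβ : 0 ≤ β)
    (hB : ‖B‖ ≤ K * β * Real.exp (-((lam z).re * τ))) :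
    ‖φ z * B‖ ≤ ε * CL L K * β * WW z.re τ := by
  have hKp := hK.K_pos
  have h := key_lin hL (lam_re_ge_sq (hz.trans hK.eta_le)) hτ.1 hτ.2
  rw [norm_mul]
  calc ‖φ z‖ * ‖B‖ ≤ ε * (1 + |z.re|) * (K * β * Real.exp (-((lam z).re * τ))) := by gcongr
    _ = ε * K * β * ((1 + |z.re|) * Real.exp (-((lam z).re * τ))) := by ring
    _ ≤ ε * K * β * ((1 + L) * Real.exp (2 * L + 4) * WW z.re τ) := by gcongr
    _ = _ := by unfold CL; ring

theorem linR_bound (hL : 1 ≤ L) (hK : KR L η K) {z : ℂ} (hz : |z.im| ≤ η) (hε : 0 ≤ ε)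
    (hφ : ‖φ z‖ ≤ ε * (1 + |z.re|)) {τ : ℝ} (hτ : τ ∈ Ioc 0 L) :
    ‖linR L φ z τ‖ ≤ ε * CL L K * WW z.re τ := by
  have h := linR_aux hL hK hz hε hφ hτ (β := 1) (B := yR L τ z / QQ L z) zero_le_one
    (by rw [mul_one]; exact hK.bR z hz τ ⟨hτ.1.le, hτ.2⟩)
  rwa [mul_one] at h

theorem linRd_bound (hL : 1 ≤ L) (hK : KR L η K) {z : ℂ} (hz : |z.im| ≤ η) (hε : 0 ≤ ε)
    (hφ : ‖φ z‖ ≤ ε * (1 + |z.re|)) {τ : ℝ} (hτ : τ ∈ Ioc 0 L) :
    ‖linRd L φ z τ‖ ≤ ε * CL L K * (1 + |z.re|) ^ 2 * WW z.re τ :=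
  linR_aux hL hK hz hε hφ hτ (by positivity) (hK.dR z hz τ ⟨hτ.1.le, hτ.2⟩)

theorem DuhR_sub {N : ℝ} {G : ℂ → ℝ → ℂ} (hL : 0 < L) (hH : BW 1 M H) (hG : BW 1 N G) (z : ℂ)
    {τ : ℝ} (hτ : 0 < τ) :
    DuhR L H z τ - DuhR L G z τ = DuhR L (fun z t => H z t - G z t) z τ := by
  have h1 : J1 (fun z t => H z t - G z t) z τ = J1 H z τ - J1 G z τ := by
    unfold J1
    rw [← intervalIntegral.integral_sub (intervalIntegrable_ssH hH z hτ.le)
      (intervalIntegrable_ssH hG z hτ.le)]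
    congr 1; funext s; ring
  have h2 : J2 L (fun z t => H z t - G z t) z τ = J2 L H z τ - J2 L G z τ := by
    unfold J2
    rw [← intervalIntegral.integral_sub
      (intervalIntegrable_tail (F := fun z σ => yR L σ z * H z σ) (contOn_yRH L hH) hL z hτ)
      (intervalIntegrable_tail (F := fun z σ => yR L σ z * G z σ) (contOn_yRH L hG) hL z hτ)]
    congr 1; funext s; ring
  unfold DuhR
  rw [h1, h2]
  ring

theorem DuhR_differentiableOn (hK : KR L η K) (hH : BW 1 M H)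
    (hd : ∀ σ ∈ Ioc 0 L, DifferentiableOn ℂ (fun z => H z σ) (strip η)) {τ : ℝ}
    (hτ : τ ∈ Ioc 0 L) : DifferentiableOn ℂ (fun z => DuhR L H z τ) (strip η) := by
  unfold DuhR
  refine DifferentiableOn.mul (DifferentiableOn.div (by fun_prop)
    (differentiable_QQ L).differentiableOn fun z hz => hK.ne z (le_of_lt hz)) ?_
  exact ((differentiable_yR L τ).differentiableOn.mul
    (differentiableOn_J1 hH (isOpen_strip η) hd hτ)).add
    ((differentiable_ss τ).differentiableOn.mul (differentiableOn_J2 hH (isOpen_strip η) hd hτ))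

theorem DuhR_sym (hs : ∀ (s k : ℝ), H (-k) s = conj (H k s)) (k t : ℝ) :
    DuhR L H (-k) t = conj (DuhR L H k t) := by
  have h1 : J1 H (-k) t = conj (J1 H k t) := by
    unfold J1
    rw [← intervalIntegral.intervalIntegral_conj]
    congr 1; funext s
    rw [map_mul, conj_ss, ss_neg, hs]
  have h2 : J2 L H (-k) t = conj (J2 L H k t) := by
    unfold J2
    rw [← intervalIntegral.intervalIntegral_conj]
    congr 1; funext s
    rw [map_mul, conj_yR, yR_neg, hs]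
  unfold DuhR
  rw [h1, h2, yR_neg, ss_neg, QQ_neg]
  simp [conj_yR, conj_ss, conj_QQ]

/-- The normalised map whose fixed point we look for; `θ` is the logarithm of the time left. -/
noncomputable def PhiR (L η : ℝ) (φ : ℂ → ℂ) (w : ℂ → ℝ → ℂ) (p : ℂ × ℝ) : ℂ :=
  (linR L φ (cl η p.1) (min (Real.exp p.2) L) +
    DuhR L (conv w w) (cl η p.1) (min (Real.exp p.2) L)) / (WW p.1.re (min (Real.exp p.2) L) : ℂ)

theorem min_exp_mem (hL : 0 < L) (θ : ℝ) : min (Real.exp θ) L ∈ Ioc 0 L :=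
  ⟨lt_min (Real.exp_pos θ) hL, min_le_right _ _⟩

theorem norm_div_WW_le {N : ℝ} {c : ℂ} {x τ : ℝ} (hτ : 0 < τ) (h : ‖c‖ ≤ N * WW x τ) :
    ‖c / (WW x τ : ℂ)‖ ≤ N := by
  rw [norm_div, Complex.norm_real, Real.norm_eq_abs, abs_of_pos (WW_pos _ hτ),
    div_le_iff₀ (WW_pos _ hτ)]
  exact h

theorem continuous_PhiR (hL : 0 < L) (hK : KR L η K) (hφd : DifferentiableOn ℂ φ (strip (1 / 2)))
    {w : ℂ → ℝ → ℂ} (hw : BW 0 M w) : Continuous (PhiR L η φ w) := by
  have hH := hw.conv hw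
  have him := cl_im_le hK.eta_pos.le
  have c5 : Continuous fun p : ℂ × ℝ => cl η p.1 := by fun_prop
  have c6 : Continuous fun p : ℂ × ℝ => min (Real.exp p.2) L := by fun_prop
  have c1 : Continuous fun p : ℂ × ℝ => φ (cl η p.1) := by
    refine hφd.continuousOn.comp_continuous c5 fun p => ?_
    exact lt_of_le_of_lt ((him p.1).trans hK.eta_le) (by norm_num)
  have c2 : Continuous fun p : ℂ × ℝ => (QQ L (cl η p.1))⁻¹ :=
    Continuous.inv₀ (by fun_prop) fun p => hK.ne _ (him p.1)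
  have c3 : Continuous fun p : ℂ × ℝ => J1 (conv w w) (cl η p.1) (min (Real.exp p.2) L) :=
    (continuousOn_J1 hH hL).comp_continuous
      (f := fun p : ℂ × ℝ => (cl η p.1, min (Real.exp p.2) L)) (c5.prodMk c6)
      fun p => ⟨mem_univ _, (min_exp_mem hL p.2).1⟩
  have c4 : Continuous fun p : ℂ × ℝ => J2 L (conv w w) (cl η p.1) (min (Real.exp p.2) L) :=
    (continuousOn_J2 hH hL).comp_continuous
      (f := fun p : ℂ × ℝ => (cl η p.1, min (Real.exp p.2) L)) (c5.prodMk c6)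
      fun p => ⟨mem_univ _, (min_exp_mem hL p.2).1⟩
  have c7 : Continuous fun p : ℂ × ℝ => WW p.1.re (min (Real.exp p.2) L) :=
    continuousOn_WW.comp_continuous
      (f := fun p : ℂ × ℝ => (p.1.re, min (Real.exp p.2) L)) (Continuous.prodMk (by fun_prop) c6)
      fun p => ⟨mem_univ _, (min_exp_mem hL p.2).1⟩
  unfold PhiR
  refine Continuous.div ?_ (continuous_ofReal.comp c7) fun p => ?_
  · simp only [linR, DuhR, div_eq_mul_inv]
    exact (c1.mul ((continuous_yR_comp L c6 c5).mul c2)).add (((c5.pow 2).mul c2).mul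
      (((continuous_yR_comp L c6 c5).mul c3).add ((continuous_ss_comp c6 c5).mul c4)))
  · exact_mod_cast (WW_pos _ (min_exp_mem hL p.2).1).ne'

theorem norm_PhiR_le (hL : 1 ≤ L) (hK : KR L η K) (hε : 0 ≤ ε)
    (hφ : ∀ z : ℂ, |z.im| ≤ η → ‖φ z‖ ≤ ε * (1 + |z.re|)) {w : ℂ → ℝ → ℂ} (hw : BW 0 M w)
    (p : ℂ × ℝ) : ‖PhiR L η φ w p‖ ≤ ε * CL L K + CR L K * (8 * Real.pi * M * M) := by
  have hL0 : 0 < L := by linarith
  have him := cl_im_le hK.eta_pos.le p.1
  have hm := min_exp_mem hL0 p.2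
  have h1 := linR_bound hL hK him hε (hφ _ him) hm
  have h2 := DuhR_bound hK (hw.conv hw) him hm
  rw [cl_re] at h1 h2
  refine norm_div_WW_le hm.1 ((norm_add_le _ _).trans ?_)
  linarith

theorem exists_fixedR (hL : 1 ≤ L) (hK : KR L η K) :
    ∃ ε₀ : ℝ, 0 < ε₀ ∧ ∀ ε : ℝ, 0 < ε → ε ≤ ε₀ → ∀ φ : ℂ → ℂ,
      DifferentiableOn ℂ φ (strip (1 / 2)) →
      (∀ z : ℂ, |z.im| ≤ η → ‖φ z‖ ≤ ε * (1 + |z.re|)) →
      (∀ k : ℝ, φ (-k) = conj (φ k)) →
      ∃ w : ℂ → ℝ → ℂ, BW 0 (2 * (ε * CL L K)) w ∧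
        (∀ τ ∈ Ioc 0 L, DifferentiableOn ℂ (fun z => w z τ) (strip η)) ∧
        (∀ τ k : ℝ, w (-k) τ = conj (w k τ)) ∧
        ∀ k : ℝ, ∀ τ ∈ Ioc 0 L, w k τ = linR L φ k τ + DuhR L (conv w w) k τ := by
  have hL0 : 0 < L := by linarith
  have hKp := hK.K_pos
  have hCR : 0 < CR L K := by unfold CR; positivity
  have hCL : 0 < CL L K := by unfold CL; positivity
  refine ⟨1 / (64 * Real.pi * CR L K * CL L K), by positivity, fun ε hε hε₀ φ hφd hφb hφs => ?_⟩
  set R : ℝ := 2 * (ε * CL L K) with hR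
  have hRpos : 0 < R := by positivity
  have hsmall : CR L K * (16 * Real.pi * R) ≤ 1 / 2 := by
    rw [le_div_iff₀ (by positivity)] at hε₀
    rw [hR]
    nlinarith
  let W : ((ℂ × ℝ) →ᵇ ℂ) → ℂ → ℝ → ℂ := fun V z τ => (WW z.re τ : ℂ) * V (z, Real.log τ)
  have hWB : ∀ (V : (ℂ × ℝ) →ᵇ ℂ) (M : ℝ), ‖V‖ ≤ M → BW 0 M (W V) := by
    intro V M hM
    constructor
    · refine ContinuousOn.mul (continuous_ofReal.comp_continuousOn
        (continuousOn_WW.comp (f := fun p : ℂ × ℝ => (p.1.re, p.2)) (by fun_prop)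
          fun p hp => ⟨mem_univ _, hp.2⟩)) ?_
      refine V.continuous.comp_continuousOn (continuousOn_fst.prodMk ?_)
      exact continuousOn_snd.log fun p hp => ne_of_gt hp.2
    · intro z τ hτ
      simp only [W, norm_mul, Complex.norm_real, Real.norm_eq_abs, abs_of_pos (WW_pos _ hτ),
        pow_zero, div_one]
      rw [mul_comm]
      gcongr
      · exact WW_nonneg _ _
      · exact (V.norm_coe_le_norm _).trans hM
  let F : ((ℂ × ℝ) →ᵇ ℂ) → ((ℂ × ℝ) →ᵇ ℂ) := fun V =>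
    ofNormedAddCommGroup (PhiR L η φ (W V)) (continuous_PhiR hL0 hK hφd (hWB V _ le_rfl)) _
      (norm_PhiR_le hL hK hε.le hφb (hWB V _ le_rfl))
  have hWF : ∀ V z, ∀ τ ∈ Ioc 0 L,
      W (F V) z τ = linR L φ (cl η z) τ + DuhR L (conv (W V) (W V)) (cl η z) τ := by
    intro V z τ hτ
    have hne : ((WW z.re τ : ℝ) : ℂ) ≠ 0 := by exact_mod_cast (WW_pos _ hτ.1).ne'
    simp only [W, F, coe_ofNormedAddCommGroup, PhiR, Real.exp_log hτ.1, min_eq_left hτ.2]
    field_simp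
  let S : Set ((ℂ × ℝ) →ᵇ ℂ) := {V | ‖V‖ ≤ R ∧
    (∀ τ ∈ Ioc 0 L, DifferentiableOn ℂ (fun z => W V z τ) (strip η)) ∧
    ∀ θ k : ℝ, V (-k, θ) = conj (V (k, θ))}
  have hsymW : ∀ V : (ℂ × ℝ) →ᵇ ℂ, (∀ θ k : ℝ, V (-k, θ) = conj (V (k, θ))) →
      ∀ τ k : ℝ, W V (-k) τ = conj (W V k τ) := by
    intro V hV τ k
    simp only [W, hV, neg_re, ofReal_re, WW_neg, map_mul, conj_ofReal]
  have hSc : IsClosed S := by
    refine (isClosed_le continuous_norm continuous_const).inter (IsClosed.inter ?_ ?_)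
    · refine IsSeqClosed.isClosed fun u V hu hV τ hτ => ?_
      refine TendstoLocallyUniformlyOn.differentiableOn (φ := atTop)
        (F := fun n z => W (u n) z τ) ?_ (Eventually.of_forall fun n => hu n τ hτ) (isOpen_strip η)
      refine TendstoUniformlyOn.tendstoLocallyUniformlyOn ?_
      rw [Metric.tendstoUniformlyOn_iff]
      intro δ hδ
      have hp := Real.sqrt_pos.2 hτ.1
      filter_upwards [(Metric.tendsto_nhds.1 hV) (δ * √τ) (by positivity)] with n hn z _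
      rw [dist_eq_norm]
      simp only [W]
      rw [← mul_sub, norm_mul, Complex.norm_real, Real.norm_eq_abs, abs_of_pos (WW_pos _ hτ.1),
        ← dist_eq_norm]
      have h1 := WW_le z.re hτ.1
      have h2 := BoundedContinuousFunction.dist_coe_le_dist (f := V) (g := u n) (z, Real.log τ)
      rw [dist_comm V (u n)] at h2
      calc WW z.re τ * dist (V (z, Real.log τ)) (u n (z, Real.log τ))
          ≤ (√τ)⁻¹ * dist (u n) V := by gcongr
        _ < (√τ)⁻¹ * (δ * √τ) := by gcongr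
        _ = δ := by field_simp
    · change IsClosed {V : (ℂ × ℝ) →ᵇ ℂ | ∀ θ k : ℝ, V (-k, θ) = conj (V (k, θ))}
      simp only [ofPred_forall]
      refine isClosed_iInter fun t => isClosed_iInter fun k => isClosed_eq ?_ ?_
      · fun_prop
      · fun_prop
  have hmaps : MapsTo F S S := by
    rintro V ⟨hV1, hV2, hV3⟩
    have hB := hWB V R hV1
    refine ⟨?_, fun τ hτ => ?_, fun θ k => ?_⟩
    · rw [BoundedContinuousFunction.norm_le hRpos.le]
      intro p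
      refine (norm_PhiR_le hL hK hε.le hφb hB p).trans ?_
      nlinarith
    · have h1 := DuhR_differentiableOn hK (hB.conv hB)
        (fun s hs => convW_differentiableOn hB hs.1 (hV2 s hs)) hτ
      have h2 : DifferentiableOn ℂ (fun z => linR L φ z τ) (strip η) := by
        unfold linR
        refine (hφd.mono fun z hz => ?_).mul (DifferentiableOn.div
          (differentiable_yR L τ).differentiableOn (differentiable_QQ L).differentiableOn
          fun z hz => hK.ne z (le_of_lt hz))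
        exact lt_of_lt_of_le hz (hK.eta_le.trans (by norm_num))
      refine (h2.add h1).congr fun z hz => ?_
      simp only [hWF V z τ hτ, cl_eq (le_of_lt hz), Pi.add_apply]
    · simp only [F, coe_ofNormedAddCommGroup, PhiR]
      have e1 : cl η (-(k : ℂ)) = -k := cl_eq (by simpa using hK.eta_pos.le)
      have e2 : cl η (k : ℂ) = k := cl_eq (by simpa using hK.eta_pos.le)
      rw [e1, e2, DuhR_sym (fun s k => conv_sym (hsymW V hV3 s) k), map_div₀, map_add,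
        conj_ofReal, neg_re, ofReal_re, WW_neg]
      congr 2
      unfold linR
      rw [hφs, yR_neg, QQ_neg]
      simp [conj_yR, conj_QQ]
  have hcontr : ContractingWith (1 / 2) (hmaps.restrict F S S) := by
    refine ⟨by norm_num, LipschitzWith.of_dist_le_mul ?_⟩
    rintro ⟨U, hU⟩ ⟨V, hV⟩
    simp only [Subtype.dist_eq, MapsTo.val_restrict_apply]
    rw [BoundedContinuousFunction.dist_le (by positivity)]
    intro p
    have hBU := hWB U R hU.1
    have hBV := hWB V R hV.1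
    have hD : ∀ z τ, 0 < τ → ‖W U z τ - W V z τ‖ ≤ dist U V * (WW z.re τ / τ ^ 0) := by
      intro z τ hτ
      simp only [W]
      rw [← mul_sub, norm_mul, Complex.norm_real, Real.norm_eq_abs, abs_of_pos (WW_pos _ hτ),
        ← dist_eq_norm, mul_comm, pow_zero, div_one]
      gcongr
      · exact WW_nonneg _ _
      · exact BoundedContinuousFunction.dist_coe_le_dist _
    have hH := (hBU.conv hBU).sub (hBV.conv hBV) (convW_sub_le hBU hBV hD)
    have hm := min_exp_mem hL0 p.2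
    have h1 := DuhR_bound hK hH (cl_im_le hK.eta_pos.le p.1) hm
    rw [cl_re, ← DuhR_sub hL0 (hBU.conv hBU) (hBV.conv hBV) _ hm.1] at h1
    simp only [F, coe_ofNormedAddCommGroup, PhiR]
    rw [dist_eq_norm, ← sub_div]
    refine norm_div_WW_le hm.1 ?_
    simp only [add_sub_add_left_eq_sub]
    refine h1.trans (mul_le_mul_of_nonneg_right ?_ (WW_nonneg _ _))
    push_cast
    nlinarith [dist_nonneg (x := U) (y := V)]
  have h0 : (0 : (ℂ × ℝ) →ᵇ ℂ) ∈ S := by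
    refine ⟨by simpa using hRpos.le, fun t _ => ?_, fun t k => ?_⟩
    · simp [W]
    · simp
  obtain ⟨V, hVS, hVfix, -⟩ := hcontr.exists_fixedPoint' hSc.isComplete hmaps h0 (edist_ne_top _ _)
  refine ⟨W V, hWB V R hVS.1, hVS.2.1, hsymW V hVS.2.2, fun k τ hτ => ?_⟩
  have h := hWF V k τ hτ
  rw [hVfix.eq] at h
  rw [h, cl_eq (by simpa using hK.eta_pos.le)]

end Pool.Agent.P.MP_38bfeb_an
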