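import Pool.Agent.P.MP_0afb51_an.Weight

/-!
The scale invariant weight, the convolution estimate and the time integrals.
-/

namespace Pool.Agent.P.MP_38bfeb_an

open Complex Set Filter Topology MeasureTheory Pool.Agent.P.MP_0afb51_an
open scoped ComplexConjugate

/-- The profile of the weight. -/
noncomputable def hh (y : ℝ) : ℝ := Real.exp (-|y|) / (1 + |y|) ^ 2

/-- The weight; `τ` is the time left before blow-up. -/
noncomputable def WW (x τ : ℝ) : ℝ := hh (x * √τ) / √τ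

theorem hh_eq (y : ℝ) : hh y = Om 2 2 y 1 := by
  have : rho 2 1 = 1 := by unfold rho; norm_num
  simp [hh, Om, this]

theorem hh_pos (y : ℝ) : 0 < hh y := by unfold hh; positivity

theorem hh_le_one (y : ℝ) : hh y ≤ 1 := by rw [hh_eq]; exact Om_le_one _ _ _ _

theorem hh_le_inv (y : ℝ) : hh y ≤ (1 + y ^ 2)⁻¹ := by rw [hh_eq]; exact Om_le_inv le_rfl _ _ _

theorem hh_le_exp (y : ℝ) : hh y ≤ Real.exp (-|y|) := by
  unfold hh
  exact div_le_self (Real.exp_pos _).le (one_le_pow₀ (by linarith [abs_nonneg y]))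

theorem hh_anti {y y' : ℝ} (h : |y| ≤ |y'|) : hh y' ≤ hh y := by
  unfold hh
  gcongr

theorem hh_mul_le (y m : ℝ) :
    hh (y - m) * hh m ≤ 4 * hh y * ((1 + m ^ 2)⁻¹ + (1 + (y - m) ^ 2)⁻¹) := by
  have := Om_mul_le (σ := 2) le_rfl 2 y m 1
  simp only [hh_eq]
  norm_num at this ⊢
  exact this

@[fun_prop]
theorem continuous_hh : Continuous hh := by
  unfold hh
  exact Continuous.div (by fun_prop) (by fun_prop) fun x => by positivity

theorem WW_pos (x : ℝ) {τ : ℝ} (hτ : 0 < τ) : 0 < WW x τ :=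
  div_pos (hh_pos _) (Real.sqrt_pos.2 hτ)

theorem WW_nonneg (x τ : ℝ) : 0 ≤ WW x τ := div_nonneg (hh_pos _).le (Real.sqrt_nonneg _)

theorem WW_neg (x τ : ℝ) : WW (-x) τ = WW x τ := by simp [WW, hh]

theorem continuousOn_WW : ContinuousOn (fun p : ℝ × ℝ => WW p.1 p.2) (univ ×ˢ Ioi 0) := by
  unfold WW
  exact ContinuousOn.div (by fun_prop) (by fun_prop) fun p hp => (Real.sqrt_pos.2 hp.2).ne'

theorem WW_le (x : ℝ) {τ : ℝ} (hτ : 0 < τ) : WW x τ ≤ (√τ)⁻¹ := by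
  unfold WW
  rw [← one_div]
  gcongr
  exact hh_le_one _

theorem WW_le_inv {δ τ : ℝ} (hδ : 0 < δ) (h : δ ≤ τ) (x : ℝ) :
    WW x τ ≤ (√δ)⁻¹ * (1 + δ⁻¹) * (1 + x ^ 2)⁻¹ := by
  have hτ : 0 < τ := hδ.trans_le h
  have h1 := hh_le_inv (x * √τ)
  rw [mul_pow, Real.sq_sqrt hτ.le] at h1
  have h2 : (1 + x ^ 2 * τ)⁻¹ ≤ (1 + δ⁻¹) * (1 + x ^ 2)⁻¹ := by
    rw [← div_eq_mul_inv, inv_eq_one_div, div_le_div_iff₀ (by positivity) (by positivity)]
    have e1 : 1 ≤ δ⁻¹ * τ := by rw [inv_mul_eq_div, one_le_div hδ]; exact h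
    have e2 : 0 < δ⁻¹ := by positivity
    nlinarith [sq_nonneg x, mul_nonneg (sq_nonneg x) hτ.le, mul_le_mul_of_nonneg_left e1 (sq_nonneg x)]
  have h3 : (√τ)⁻¹ ≤ (√δ)⁻¹ := inv_anti₀ (Real.sqrt_pos.2 hδ) (Real.sqrt_le_sqrt h)
  unfold WW
  rw [div_eq_mul_inv, mul_comm, mul_assoc]
  exact mul_le_mul h3 (h1.trans h2) (hh_pos _).le (by positivity)

theorem WW_le_exp {δ τ : ℝ} (hδ : 0 < δ) (h : δ ≤ τ) (x : ℝ) :
    WW x τ ≤ (√δ)⁻¹ * Real.exp (-(√δ * |x|)) := by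
  have h1 := hh_le_exp (x * √τ)
  have h2 : Real.exp (-|x * √τ|) ≤ Real.exp (-(√δ * |x|)) := by
    apply Real.exp_le_exp.2
    rw [abs_mul, abs_of_nonneg (Real.sqrt_nonneg τ)]
    nlinarith [Real.sqrt_le_sqrt h, abs_nonneg x]
  have h3 : (√τ)⁻¹ ≤ (√δ)⁻¹ := inv_anti₀ (Real.sqrt_pos.2 hδ) (Real.sqrt_le_sqrt h)
  unfold WW
  rw [div_eq_mul_inv, mul_comm]
  exact mul_le_mul h3 (h1.trans h2) (hh_pos _).le (by positivity)

theorem integrable_scaled {p : ℝ} (hp : 0 < p) : Integrable fun l : ℝ => (1 + (l * p) ^ 2)⁻¹ :=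
  integrable_inv_one_add_sq.comp_mul_right' hp.ne'

theorem integral_scaled {p : ℝ} (hp : 0 < p) : ∫ l : ℝ, (1 + (l * p) ^ 2)⁻¹ = Real.pi / p := by
  rw [Measure.integral_comp_mul_right (fun y : ℝ => (1 + y ^ 2)⁻¹), integral_univ_inv_one_add_sq,
    abs_of_pos (inv_pos.2 hp), smul_eq_mul]
  ring

theorem key_left {L x r σ τ : ℝ} (hr : x ^ 2 - 2 ≤ r) (hσ : 0 ≤ σ) (hστ : σ ≤ τ) (hτ : τ ≤ L) :
    Real.exp (-(r * (τ - σ))) * hh (x * √σ) ≤
      Real.exp (3 * L + 5) * Real.exp (-((1 + |x|) ^ 2 / 4 * (τ - σ))) * hh (x * √τ) := by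
  have hp := Real.sqrt_nonneg σ
  have hpq : √σ ≤ √τ := Real.sqrt_le_sqrt hστ
  have hp2 := Real.sq_sqrt hσ
  have hq2 := Real.sq_sqrt (hσ.trans hστ)
  have ha := abs_nonneg x
  have ha2 := sq_abs x
  set d := |x| * (√τ - √σ) with hd
  have hd0 : 0 ≤ d := mul_nonneg ha (sub_nonneg.2 hpq)
  have hd2 : d ^ 2 ≤ x ^ 2 * (τ - σ) := by
    rw [hd, mul_pow, ha2]
    apply mul_le_mul_of_nonneg_left _ (sq_nonneg x)
    nlinarith
  have e1 : |x * √σ| = |x| * √σ := by rw [abs_mul, abs_of_nonneg hp]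
  have e2 : |x * √τ| = |x| * √σ + d := by
    rw [abs_mul, abs_of_nonneg (Real.sqrt_nonneg τ), hd]; ring
  have h1 : hh (x * √σ) ≤ Real.exp (3 * d) * hh (x * √τ) := by
    unfold hh
    rw [e1, e2, ← mul_div_assoc, div_le_div_iff₀ (by positivity) (by positivity)]
    have k1 : 1 + (|x| * √σ + d) ≤ Real.exp d * (1 + |x| * √σ) := by
      have := Real.add_one_le_exp d
      nlinarith [mul_nonneg ha hp]
    have k2 : (1 + (|x| * √σ + d)) ^ 2 ≤ (Real.exp d * (1 + |x| * √σ)) ^ 2 := by gcongr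
    have k3 : Real.exp (3 * d) * Real.exp (-(|x| * √σ + d)) =
        Real.exp (-(|x| * √σ)) * Real.exp d ^ 2 := by
      rw [sq, ← Real.exp_add, ← Real.exp_add, ← Real.exp_add]; congr 1; ring
    rw [k3]
    calc Real.exp (-(|x| * √σ)) * (1 + (|x| * √σ + d)) ^ 2
        ≤ Real.exp (-(|x| * √σ)) * (Real.exp d * (1 + |x| * √σ)) ^ 2 := by gcongr
      _ = _ := by ring
  have h2 : Real.exp (-(r * (τ - σ))) * Real.exp (3 * d) ≤
      Real.exp (3 * L + 5) * Real.exp (-((1 + |x|) ^ 2 / 4 * (τ - σ))) := by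
    rw [← Real.exp_add, ← Real.exp_add]
    apply Real.exp_le_exp.2
    have k1 : (1 + |x|) ^ 2 / 4 ≤ x ^ 2 / 2 + 1 / 2 := by nlinarith [sq_nonneg (|x| - 1)]
    have k2 : 0 ≤ τ - σ := sub_nonneg.2 hστ
    nlinarith [sq_nonneg (d - 3), mul_le_mul_of_nonneg_right k1 k2,
      mul_le_mul_of_nonneg_right hr k2]
  calc Real.exp (-(r * (τ - σ))) * hh (x * √σ)
      ≤ Real.exp (-(r * (τ - σ))) * (Real.exp (3 * d) * hh (x * √τ)) := by gcongr
    _ = Real.exp (-(r * (τ - σ))) * Real.exp (3 * d) * hh (x * √τ) := by ring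
    _ ≤ _ := mul_le_mul_of_nonneg_right h2 (hh_pos _).le

theorem key_lin {L x r τ : ℝ} (hL : 1 ≤ L) (hr : x ^ 2 - 2 ≤ r) (hτ : 0 < τ) (hτL : τ ≤ L) :
    (1 + |x|) * Real.exp (-(r * τ)) ≤ (1 + L) * Real.exp (2 * L + 4) * WW x τ := by
  have hp := Real.sqrt_pos.2 hτ
  have hp2 := Real.sq_sqrt hτ.le
  have hpL : √τ ≤ L := by
    rw [Real.sqrt_le_left (by linarith)]; nlinarith
  have ha := abs_nonneg x
  have e1 : |x * √τ| = |x| * √τ := by rw [abs_mul, abs_of_pos hp]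
  set y := |x| * √τ with hy
  have hy0 : 0 ≤ y := mul_nonneg ha hp.le
  have hy2 : y ^ 2 = x ^ 2 * τ := by rw [hy, mul_pow, sq_abs, hp2]
  unfold WW hh
  rw [e1, div_div, ← mul_div_assoc, le_div_iff₀ (by positivity)]
  have k1 : (1 + |x|) * √τ ≤ (1 + L) * (1 + y) := by nlinarith
  have k2 : (1 + y) ^ 3 ≤ Real.exp y ^ 3 := by
    gcongr
    linarith [Real.add_one_le_exp y]
  have k3 : Real.exp y ^ 3 * Real.exp (-(r * τ)) ≤ Real.exp (2 * L + 4) * Real.exp (-y) := by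
    rw [← Real.exp_nat_mul, ← Real.exp_add, ← Real.exp_add]
    apply Real.exp_le_exp.2
    push_cast
    nlinarith [sq_nonneg (y - 2), mul_le_mul_of_nonneg_right hr hτ.le]
  calc (1 + |x|) * Real.exp (-(r * τ)) * ((1 + y) ^ 2 * √τ)
      = ((1 + |x|) * √τ) * (1 + y) ^ 2 * Real.exp (-(r * τ)) := by ring
    _ ≤ ((1 + L) * (1 + y)) * (1 + y) ^ 2 * Real.exp (-(r * τ)) := by gcongr
    _ = (1 + L) * ((1 + y) ^ 3 * Real.exp (-(r * τ))) := by ring
    _ ≤ (1 + L) * (Real.exp y ^ 3 * Real.exp (-(r * τ))) := by gcongr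
    _ ≤ (1 + L) * (Real.exp (2 * L + 4) * Real.exp (-y)) := by gcongr
    _ = _ := by ring

theorem intervalIntegrable_inv_sqrt {τ : ℝ} (hτ : 0 ≤ τ) :
    IntervalIntegrable (fun σ => (√σ)⁻¹) volume 0 τ := by
  refine (intervalIntegral.intervalIntegrable_rpow' (r := -(1 / 2)) (by norm_num)).congr
    fun σ hσ => ?_
  rw [uIoc_of_le hτ] at hσ
  rw [Real.sqrt_eq_rpow, Real.rpow_neg hσ.1.le]

theorem intervalIntegrable_left (b : ℝ) {τ : ℝ} (hτ : 0 ≤ τ) :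
    IntervalIntegrable (fun σ => b * Real.exp (-(b * (τ - σ))) * (√σ)⁻¹) volume 0 τ :=
  (intervalIntegrable_inv_sqrt hτ).continuousOn_mul (by fun_prop)

theorem integral_left_le {b τ : ℝ} (hb : 0 ≤ b) (hτ : 0 < τ) :
    ∫ σ in (0 : ℝ)..τ, b * Real.exp (-(b * (τ - σ))) * (√σ)⁻¹ ≤ 3 * (√τ)⁻¹ := by
  have hne : ∀ σ : ℝ, 0 ≤ σ → 1 + b * σ ≠ 0 := fun σ hσ => by positivity
  have h := intervalIntegral.integral_le_sub_of_hasDeriv_right_of_le hτ.le
    (g := fun σ => Real.exp (-(b * (τ - σ))) * (3 * b * √σ / (1 + b * σ)))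
    (g' := fun σ => Real.exp (-(b * (τ - σ))) * b * (3 * b * √σ / (1 + b * σ)) +
      Real.exp (-(b * (τ - σ))) *
        ((3 * b * (1 / (2 * √σ)) * (1 + b * σ) - 3 * b * √σ * b) / (1 + b * σ) ^ 2))
    (φ := fun σ => b * Real.exp (-(b * (τ - σ))) * (√σ)⁻¹) ?_ ?_ ?_ ?_
  · refine h.trans ?_
    have hp := Real.sqrt_pos.2 hτ
    have hp2 := Real.sq_sqrt hτ.le
    simp only [sub_self, mul_zero, neg_zero, Real.exp_zero, one_mul, Real.sqrt_zero, zero_div,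
      sub_zero]
    rw [← div_eq_mul_inv, div_le_div_iff₀ (by positivity) hp]
    nlinarith
  · exact ContinuousOn.mul (by fun_prop)
      (ContinuousOn.div (by fun_prop) (by fun_prop) fun σ hσ => hne σ hσ.1)
  · intro σ hσ
    have h1 : HasDerivAt (fun σ : ℝ => -(b * (τ - σ))) b σ :=
      (((hasDerivAt_id σ).const_sub τ).const_mul b).fun_neg.congr_deriv (by ring)
    have h2 : HasDerivAt (fun σ : ℝ => 3 * b * √σ) (3 * b * (1 / (2 * √σ))) σ :=
      (Real.hasDerivAt_sqrt hσ.1.ne').const_mul _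
    have h3 : HasDerivAt (fun σ : ℝ => 1 + b * σ) b σ :=
      (((hasDerivAt_id σ).const_mul b).const_add 1).congr_deriv (by ring)
    exact (h1.exp.fun_mul (h2.fun_div h3 (hne σ hσ.1.le))).hasDerivWithinAt
  · exact (intervalIntegrable_iff_integrableOn_Icc_of_le hτ.le).1 (intervalIntegrable_left b hτ.le)
  · intro σ hσ
    have hp := Real.sqrt_pos.2 hσ.1
    have hp2 := Real.sq_sqrt hσ.1.le
    have hE := Real.exp_pos (-(b * (τ - σ)))
    have hy : 0 ≤ b * σ := mul_nonneg hb hσ.1.le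
    have key : (√σ)⁻¹ ≤ 3 * b * √σ / (1 + b * σ) +
        (3 * (1 / (2 * √σ)) * (1 + b * σ) - 3 * √σ * b) / (1 + b * σ) ^ 2 := by
      have e : 3 * b * √σ / (1 + b * σ) +
          (3 * (1 / (2 * √σ)) * (1 + b * σ) - 3 * √σ * b) / (1 + b * σ) ^ 2 =
          (√σ)⁻¹ * ((3 * (b * √σ ^ 2) * (1 + b * σ) + 3 / 2 * (1 + b * σ) - 3 * (b * √σ ^ 2)) /
            (1 + b * σ) ^ 2) := by
        field_simp
        ring
      rw [e, hp2]
      refine le_mul_of_one_le_right (by positivity) ?_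
      rw [one_le_div (by positivity)]
      nlinarith [sq_nonneg (b * σ - 1 / 8)]
    calc b * Real.exp (-(b * (τ - σ))) * (√σ)⁻¹
        ≤ b * Real.exp (-(b * (τ - σ))) * (3 * b * √σ / (1 + b * σ) +
          (3 * (1 / (2 * √σ)) * (1 + b * σ) - 3 * √σ * b) / (1 + b * σ) ^ 2) := by gcongr
      _ = _ := by ring

theorem continuousOn_right {τ L : ℝ} (hτ : 0 < τ) (hτL : τ ≤ L) :
    ContinuousOn (fun σ : ℝ => (√σ)⁻¹ / σ) (uIcc τ L) := by
  rw [uIcc_of_le hτL]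
  exact ContinuousOn.div (ContinuousOn.inv₀ (by fun_prop)
    fun σ hσ => (Real.sqrt_pos.2 (hτ.trans_le hσ.1)).ne') (by fun_prop)
    fun σ hσ => (hτ.trans_le hσ.1).ne'

theorem integral_right_le {τ L : ℝ} (hτ : 0 < τ) (hτL : τ ≤ L) :
    ∫ σ in τ..L, (√σ)⁻¹ / σ ≤ 2 * (√τ)⁻¹ := by
  have h : ∫ σ in τ..L, (√σ)⁻¹ / σ = -2 * (√L)⁻¹ - -2 * (√τ)⁻¹ := by
    refine intervalIntegral.integral_eq_sub_of_hasDerivAt (f := fun σ => -2 * (√σ)⁻¹)
      (fun σ hσ => ?_) (continuousOn_right hτ hτL).intervalIntegrable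
    rw [uIcc_of_le hτL] at hσ
    have hσ0 : 0 < σ := hτ.trans_le hσ.1
    have hp := Real.sqrt_pos.2 hσ0
    refine (((Real.hasDerivAt_sqrt hσ0.ne').fun_inv hp.ne').const_mul (-2)).congr_deriv ?_
    rw [Real.sq_sqrt hσ0.le]
    field_simp
  rw [h]
  have : 0 ≤ (√L)⁻¹ := by positivity
  linarith

/-- Functions continuous for positive `τ` and dominated by `M * WW / τ ^ j`. -/
structure BW (j : ℕ) (M : ℝ) (w : ℂ → ℝ → ℂ) : Prop where
  cont : ContinuousOn (fun p : ℂ × ℝ => w p.1 p.2) (univ ×ˢ Ioi 0)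
  bd : ∀ z τ, 0 < τ → ‖w z τ‖ ≤ M * (WW z.re τ / τ ^ j)

theorem BW.nonneg {j : ℕ} {M : ℝ} {w : ℂ → ℝ → ℂ} (h : BW j M w) : 0 ≤ M := by
  have := (norm_nonneg _).trans (h.bd 0 1 one_pos)
  exact nonneg_of_mul_nonneg_left this (div_pos (WW_pos _ one_pos) (by positivity))

theorem BW.comp {j : ℕ} {M : ℝ} {w : ℂ → ℝ → ℂ} (h : BW j M w) {X : Type*}
    [TopologicalSpace X] {f : X → ℂ} {g : X → ℝ} (hf : Continuous f) (hg : Continuous g)
    (hpos : ∀ x, 0 < g x) : Continuous fun x => w (f x) (g x) :=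
  h.cont.comp_continuous (f := fun x => (f x, g x)) (hf.prodMk hg) fun x => ⟨mem_univ _, hpos x⟩

theorem BW.bd0 {M : ℝ} {w : ℂ → ℝ → ℂ} (h : BW 0 M w) (z : ℂ) {τ : ℝ} (hτ : 0 < τ) :
    ‖w z τ‖ ≤ M * WW z.re τ := by simpa using h.bd z τ hτ

theorem convW_integrand_le {M N : ℝ} {v w : ℂ → ℝ → ℂ} (hv : BW 0 M v) (hw : BW 0 N w) {δ : ℝ}
    (hδ : 0 < δ) (z : ℂ) {τ : ℝ} (hτ : δ ≤ τ) (l : ℝ) :
    ‖v (z - l) τ * w l τ‖ ≤ M * (√δ)⁻¹ * (N * ((√δ)⁻¹ * (1 + δ⁻¹))) * (1 + l ^ 2)⁻¹ := by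
  have hτ0 := hδ.trans_le hτ
  have h1 := hv.bd0 (z - l) hτ0
  have h2 := hw.bd0 l hτ0
  have h3 : WW (z - l).re τ ≤ (√δ)⁻¹ :=
    (WW_le _ hτ0).trans (inv_anti₀ (Real.sqrt_pos.2 hδ) (Real.sqrt_le_sqrt hτ))
  have h4 := WW_le_inv hδ hτ (l : ℂ).re
  have hM := hv.nonneg
  have hN := hw.nonneg
  rw [norm_mul]
  calc ‖v (z - l) τ‖ * ‖w l τ‖
      ≤ (M * (√δ)⁻¹) * (N * ((√δ)⁻¹ * (1 + δ⁻¹) * (1 + (l : ℂ).re ^ 2)⁻¹)) := by
        gcongr
        · exact h1.trans (by gcongr)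
        · exact h2.trans (by gcongr)
    _ = _ := by simp only [ofReal_re]; ring

theorem convW_integrable {M N : ℝ} {v w : ℂ → ℝ → ℂ} (hv : BW 0 M v) (hw : BW 0 N w) (z : ℂ)
    {τ : ℝ} (hτ : 0 < τ) : Integrable fun l : ℝ => v (z - l) τ * w l τ := by
  refine (integrable_inv_one_add_sq.const_mul _).mono' ?_
    (Eventually.of_forall fun l => convW_integrand_le hv hw hτ z le_rfl l)
  exact ((hv.comp (by fun_prop) continuous_const fun _ => hτ).mul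
    (hw.comp (by fun_prop) continuous_const fun _ => hτ)).aestronglyMeasurable

theorem BW.conv {M N : ℝ} {v w : ℂ → ℝ → ℂ} (hv : BW 0 M v) (hw : BW 0 N w) :
    BW 1 (8 * Real.pi * M * N) (conv v w) := by
  have hM := hv.nonneg
  have hN := hw.nonneg
  have hO : IsOpen ((univ : Set ℂ) ×ˢ Ioi (0 : ℝ)) := isOpen_univ.prod isOpen_Ioi
  constructor
  · rintro ⟨z₀, τ₀⟩ ⟨-, hτ₀⟩
    have hτ₀' : 0 < τ₀ := hτ₀
    have hev : ∀ᶠ p : ℂ × ℝ in 𝓝 (z₀, τ₀), τ₀ / 2 < p.2 :=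
      continuousAt_const.eventually_lt continuousAt_snd (by simpa using hτ₀')
    refine ContinuousAt.continuousWithinAt ?_
    refine continuousAt_of_dominated
      (F := fun (p : ℂ × ℝ) (l : ℝ) => v (p.1 - l) p.2 * w l p.2)
      (bound := fun l => M * (√(τ₀ / 2))⁻¹ * (N * ((√(τ₀ / 2))⁻¹ * (1 + (τ₀ / 2)⁻¹))) *
        (1 + l ^ 2)⁻¹) ?_ ?_ (integrable_inv_one_add_sq.const_mul _)
      (Eventually.of_forall fun l => ?_)
    · filter_upwards [hev] with p hp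
      exact (convW_integrable hv hw p.1 ((half_pos hτ₀').trans hp)).aestronglyMeasurable
    · filter_upwards [hev] with p hp
      exact Eventually.of_forall fun l => convW_integrand_le hv hw (half_pos hτ₀') p.1 hp.le l
    · refine ContinuousAt.mul ?_ ?_
      · exact ContinuousAt.comp (f := fun p : ℂ × ℝ => (p.1 - l, p.2))
          (hv.cont.continuousAt (hO.mem_nhds ⟨mem_univ _, hτ₀⟩)) (by fun_prop)
      · exact ContinuousAt.comp (f := fun p : ℂ × ℝ => ((l : ℂ), p.2))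
          (hw.cont.continuousAt (hO.mem_nhds ⟨mem_univ _, hτ₀⟩)) (by fun_prop)
  · intro z τ hτ
    have hp := Real.sqrt_pos.2 hτ
    have hp2 := Real.sq_sqrt hτ.le
    have hi1 := integrable_scaled hp
    have hi2 : Integrable fun l : ℝ => (1 + ((z.re - l) * √τ) ^ 2)⁻¹ := hi1.comp_sub_left z.re
    have hi : Integrable fun l : ℝ => M * N * (4 * hh (z.re * √τ) / τ) *
        ((1 + (l * √τ) ^ 2)⁻¹ + (1 + ((z.re - l) * √τ) ^ 2)⁻¹) := (hi1.add hi2).const_mul _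
    refine (norm_integral_le_of_norm_le hi (Eventually.of_forall fun l => ?_)).trans (le_of_eq ?_)
    · have h1 := hv.bd0 (z - l) hτ
      have h2 := hw.bd0 l hτ
      simp only [sub_re, ofReal_re] at h1 h2
      have h3 := hh_mul_le (z.re * √τ) (l * √τ)
      rw [← sub_mul] at h3
      rw [norm_mul]
      calc ‖v (z - l) τ‖ * ‖w l τ‖ ≤ (M * WW (z.re - l) τ) * (N * WW l τ) := by
            gcongr
            exact mul_nonneg hM (WW_nonneg _ _)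
        _ = M * N * (hh ((z.re - l) * √τ) * hh (l * √τ)) / √τ ^ 2 := by
            unfold WW; field_simp
        _ ≤ M * N * (4 * hh (z.re * √τ) *
            ((1 + (l * √τ) ^ 2)⁻¹ + (1 + ((z.re - l) * √τ) ^ 2)⁻¹)) / √τ ^ 2 := by gcongr
        _ = _ := by rw [hp2]; ring
    · rw [integral_const_mul, integral_add hi1 hi2,
        integral_sub_left_eq_self (fun l : ℝ => (1 + (l * √τ) ^ 2)⁻¹), integral_scaled hp, WW]
      ring

theorem BW.sub {j : ℕ} {M N : ℝ} {v w : ℂ → ℝ → ℂ} (hv : BW j M v) (hw : BW j N w)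
    {D : ℝ} (hD : ∀ z τ, 0 < τ → ‖v z τ - w z τ‖ ≤ D * (WW z.re τ / τ ^ j)) :
    BW j D fun z τ => v z τ - w z τ :=
  ⟨hv.cont.sub hw.cont, hD⟩

theorem convW_sub_le {R D : ℝ} {v w : ℂ → ℝ → ℂ} (hv : BW 0 R v) (hw : BW 0 R w)
    (hD : ∀ z τ, 0 < τ → ‖v z τ - w z τ‖ ≤ D * (WW z.re τ / τ ^ 0)) (z : ℂ) (τ : ℝ) (hτ : 0 < τ) :
    ‖conv v v z τ - conv w w z τ‖ ≤ 16 * Real.pi * R * D * (WW z.re τ / τ ^ 1) := by
  have hd := hv.sub hw hD
  have h1 := (hd.conv hv).bd z τ hτ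
  have h2 := (hw.conv hd).bd z τ hτ
  have h3 : conv v v z τ - conv w w z τ =
      conv (fun z t => v z t - w z t) v z τ + conv w (fun z t => v z t - w z t) z τ := by
    unfold conv
    rw [← integral_sub (convW_integrable hv hv z hτ) (convW_integrable hw hw z hτ),
      ← integral_add (convW_integrable hd hv z hτ) (convW_integrable hw hd z hτ)]
    congr 1
    funext l
    ring
  rw [h3]
  refine (norm_add_le _ _).trans ?_
  linarith

theorem convW_differentiableOn {M η : ℝ} {w : ℂ → ℝ → ℂ} (hw : BW 0 M w) {τ : ℝ} (hτ : 0 < τ)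
    (hd : DifferentiableOn ℂ (fun z => w z τ) (strip η)) :
    DifferentiableOn ℂ (fun z => conv w w z τ) (strip η) := by
  refine differentiableOn_integral_of_bound (isOpen_strip η)
    (fun z _ => (convW_integrable hw hw z hτ).aestronglyMeasurable) (fun l => ?_)
    (Eventually.of_forall fun l z _ => convW_integrand_le hw hw hτ z le_rfl l)
    (integrable_inv_one_add_sq.const_mul _)
  refine DifferentiableOn.mul_const ?_ _
  refine hd.comp (f := fun z : ℂ => z - l) (by fun_prop) fun z hz => ?_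
  simpa [strip] using hz

end Pool.Agent.P.MP_38bfeb_an
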