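import Pool.Agent.P.MP_38bfeb_an.Kernel
import Pool.Agent.P.MP_38bfeb_an.Weight

/-!
The Green operator acting on sources with the critical singularity at `τ = 0`.
-/

namespace Pool.Agent.P.MP_38bfeb_an

open Complex Set Filter Topology MeasureTheory Pool.Agent.P.MP_0afb51_an
open scoped ComplexConjugate

section tail

variable {F : ℂ → ℝ → ℂ} {L : ℝ}

theorem continuous_trunc (hF : ContinuousOn (fun p : ℂ × ℝ => F p.1 p.2) (univ ×ˢ Ioi 0)) {δ : ℝ}
    (hδ : 0 < δ) : Continuous fun p : ℂ × ℝ => F p.1 (max p.2 δ) :=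
  hF.comp_continuous (f := fun p : ℂ × ℝ => (p.1, max p.2 δ)) (by fun_prop)
    fun p => ⟨mem_univ _, hδ.trans_le (le_max_right _ _)⟩

theorem tail_eq {δ τ : ℝ} (h1 : δ ≤ τ) (h2 : δ ≤ L) (z : ℂ) :
    ∫ σ in τ..L, F z σ = -∫ σ in L..τ, F z (max σ δ) := by
  rw [intervalIntegral.integral_symm L]
  congr 1
  refine intervalIntegral.integral_congr fun σ hσ => ?_
  have : δ ≤ σ := (le_min h2 h1).trans hσ.1
  simp only [max_eq_left this]

theorem continuousOn_tail (hF : ContinuousOn (fun p : ℂ × ℝ => F p.1 p.2) (univ ×ˢ Ioi 0))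
    (hL : 0 < L) : ContinuousOn (fun p : ℂ × ℝ => ∫ σ in p.2..L, F p.1 σ) (univ ×ˢ Ioi 0) := by
  rintro ⟨z₀, τ₀⟩ ⟨-, hτ₀⟩
  have hτ₀' : 0 < τ₀ := hτ₀
  have hδ : 0 < min (τ₀ / 2) L := lt_min (half_pos hτ₀') hL
  have h := (intervalIntegral.continuous_parametric_primitive_of_continuous (μ := volume) (a₀ := L)
    (f := fun z σ => F z (max σ (min (τ₀ / 2) L))) (continuous_trunc hF hδ)).neg
  refine (h.continuousAt.congr ?_).continuousWithinAt
  have hev : ∀ᶠ p : ℂ × ℝ in 𝓝 (z₀, τ₀), τ₀ / 2 < p.2 :=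
    continuousAt_const.eventually_lt continuousAt_snd (by simpa using hτ₀')
  filter_upwards [hev] with p hp
  exact (tail_eq ((min_le_left _ _).trans hp.le) (min_le_right _ _) p.1).symm

theorem hasDerivAt_tail (hF : ContinuousOn (fun p : ℂ × ℝ => F p.1 p.2) (univ ×ˢ Ioi 0))
    (hL : 0 < L) (z : ℂ) {τ₀ : ℝ} (hτ₀ : 0 < τ₀) :
    HasDerivAt (fun τ => ∫ σ in τ..L, F z σ) (-F z τ₀) τ₀ := by
  have hδ : 0 < min (τ₀ / 2) L := lt_min (half_pos hτ₀) hL
  have hc : Continuous fun σ => F z (max σ (min (τ₀ / 2) L)) :=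
    (continuous_trunc hF hδ).comp (Continuous.prodMk_right z)
  have h := (hc.integral_hasStrictDerivAt L τ₀).hasDerivAt.fun_neg
  rw [max_eq_left ((min_le_left _ _).trans (by linarith))] at h
  refine h.congr_of_eventuallyEq ?_
  filter_upwards [Ioi_mem_nhds (half_lt_self hτ₀)] with τ hτ
  exact tail_eq ((min_le_left _ _).trans (le_of_lt hτ)) (min_le_right _ _) z

theorem differentiableOn_tail (hF : ContinuousOn (fun p : ℂ × ℝ => F p.1 p.2) (univ ×ˢ Ioi 0))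
    {U : Set ℂ} (hU : IsOpen U)
    (hd : ∀ σ ∈ Ioc 0 L, DifferentiableOn ℂ (fun z => F z σ) U) {τ : ℝ} (hτ : τ ∈ Ioc 0 L) :
    DifferentiableOn ℂ (fun z => ∫ σ in τ..L, F z σ) U := by
  have hmem : ∀ σ, min (max σ τ) L ∈ Ioc 0 L := fun σ =>
    ⟨lt_min (hτ.1.trans_le (le_max_right _ _)) (hτ.1.trans_le hτ.2), min_le_right _ _⟩
  have hc : Continuous fun p : ℂ × ℝ => F p.1 (min (max p.2 τ) L) :=
    hF.comp_continuous (f := fun p : ℂ × ℝ => (p.1, min (max p.2 τ) L)) (by fun_prop)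
      fun p => ⟨mem_univ _, (hmem p.2).1⟩
  refine (differentiableOn_intervalIntegral hU (F := fun z σ => F z (min (max σ τ) L)) hc
    (fun σ => hd _ (hmem σ)) τ L).congr fun z _ => ?_
  refine intervalIntegral.integral_congr fun σ hσ => ?_
  rw [uIcc_of_le hτ.2] at hσ
  simp only [max_eq_left hσ.1, min_eq_left hσ.2]

theorem intervalIntegrable_tail (hF : ContinuousOn (fun p : ℂ × ℝ => F p.1 p.2) (univ ×ˢ Ioi 0))
    (hL : 0 < L) (z : ℂ) {τ : ℝ} (hτ : 0 < τ) : IntervalIntegrable (F z) volume τ L := by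
  refine ContinuousOn.intervalIntegrable ?_
  refine hF.comp (f := fun σ : ℝ => (z, σ)) (by fun_prop) fun σ hσ => ⟨mem_univ _, ?_⟩
  exact (lt_min hτ hL).trans_le hσ.1

end tail

noncomputable def J1 (H : ℂ → ℝ → ℂ) (z : ℂ) (τ : ℝ) : ℂ := ∫ σ in (0 : ℝ)..τ, ss σ z * H z σ

noncomputable def J2 (L : ℝ) (H : ℂ → ℝ → ℂ) (z : ℂ) (τ : ℝ) : ℂ :=
  ∫ σ in τ..L, yR L σ z * H z σ

variable {L η K M : ℝ} {H : ℂ → ℝ → ℂ}

theorem contOn_ssH (hH : BW 1 M H) :
    ContinuousOn (fun p : ℂ × ℝ => ss p.2 p.1 * H p.1 p.2) (univ ×ˢ Ioi 0) :=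
  (continuous_ss_comp continuous_snd continuous_fst).continuousOn.mul hH.cont

theorem contOn_yRH (L : ℝ) (hH : BW 1 M H) :
    ContinuousOn (fun p : ℂ × ℝ => yR L p.2 p.1 * H p.1 p.2) (univ ×ˢ Ioi 0) :=
  (continuous_yR_comp L continuous_snd continuous_fst).continuousOn.mul hH.cont

theorem norm_ssH_le (hH : BW 1 M H) (z : ℂ) {σ : ℝ} (hσ : 0 < σ) :
    ‖ss σ z * H z σ‖ ≤ M * (Real.exp ((lam z).re * σ) * hh (z.re * √σ)) * (√σ)⁻¹ := by
  have h1 := norm_ss_le z hσ.le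
  have h2 := hH.bd z σ hσ
  rw [norm_mul]
  calc ‖ss σ z‖ * ‖H z σ‖ ≤ σ * Real.exp ((lam z).re * σ) * (M * (WW z.re σ / σ ^ 1)) := by gcongr
    _ = _ := by unfold WW; field_simp

theorem norm_ssH_le' (hH : BW 1 M H) {z : ℂ} {R τ σ : ℝ} (hR : ‖mu z‖ ≤ R) (hσ : σ ∈ Ioc 0 τ) :
    ‖ss σ z * H z σ‖ ≤ M * Real.exp ((1 + R) * τ) * (√σ)⁻¹ := by
  refine (norm_ssH_le hH z hσ.1).trans ?_
  have hM := hH.nonneg
  have h1 : Real.exp ((lam z).re * σ) ≤ Real.exp ((1 + R) * τ) := by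
    apply Real.exp_le_exp.2
    exact mul_le_mul ((lam_re_le z).trans (by linarith)) hσ.2 hσ.1.le
      (by linarith [norm_nonneg (mu z)])
  have h2 : Real.exp ((lam z).re * σ) * hh (z.re * √σ) ≤ Real.exp ((1 + R) * τ) * 1 :=
    mul_le_mul h1 (hh_le_one _) (hh_pos _).le (Real.exp_pos _).le
  rw [mul_one] at h2
  gcongr

theorem meas_ssH (hH : BW 1 M H) (z : ℂ) (τ : ℝ) :
    AEStronglyMeasurable (fun σ => ss σ z * H z σ) (volume.restrict (Ioc 0 τ)) := by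
  refine ContinuousOn.aestronglyMeasurable ?_ measurableSet_Ioc
  exact (contOn_ssH hH).comp (f := fun σ : ℝ => (z, σ)) (by fun_prop)
    fun σ hσ => ⟨mem_univ _, hσ.1⟩

theorem intervalIntegrable_ssH (hH : BW 1 M H) (z : ℂ) {τ : ℝ} (hτ : 0 ≤ τ) :
    IntervalIntegrable (fun σ => ss σ z * H z σ) volume 0 τ := by
  refine IntervalIntegrable.mono_fun'
    ((intervalIntegrable_inv_sqrt hτ).const_mul (M * Real.exp ((1 + ‖mu z‖) * τ))) ?_ ?_
  · rw [uIoc_of_le hτ]; exact meas_ssH hH z τ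
  · rw [uIoc_of_le hτ]
    exact (ae_restrict_iff' measurableSet_Ioc).2
      (Eventually.of_forall fun σ hσ => norm_ssH_le' hH le_rfl hσ)

theorem J1_eq (hH : BW 1 M H) (hL : 0 < L) (z : ℂ) {τ : ℝ} (hτ : 0 < τ) :
    J1 H z τ = J1 H z L - ∫ σ in τ..L, ss σ z * H z σ := by
  unfold J1
  rw [← intervalIntegral.integral_add_adjacent_intervals (intervalIntegrable_ssH hH z hτ.le)
    (intervalIntegrable_tail (F := fun z σ => ss σ z * H z σ) (contOn_ssH hH) hL z hτ)]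
  ring

theorem continuous_J1_end (hH : BW 1 M H) (hL : 0 < L) : Continuous fun z => J1 H z L := by
  rw [continuous_iff_continuousAt]
  intro z₀
  have hO : IsOpen ((univ : Set ℂ) ×ˢ Ioi (0 : ℝ)) := isOpen_univ.prod isOpen_Ioi
  have hev : ∀ᶠ z in 𝓝 z₀, ‖mu z‖ < ‖mu z₀‖ + 1 :=
    continuous_mu.norm.continuousAt.eventually_lt continuousAt_const (lt_add_one _)
  refine intervalIntegral.continuousAt_of_dominated_interval
    (F := fun z σ => ss σ z * H z σ)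
    (bound := fun σ => M * Real.exp ((1 + (‖mu z₀‖ + 1)) * L) * (√σ)⁻¹)
    (Eventually.of_forall fun z => ?_) ?_ ((intervalIntegrable_inv_sqrt hL.le).const_mul _)
    (Eventually.of_forall fun σ hσ => ?_)
  · rw [uIoc_of_le hL.le]; exact meas_ssH hH z L
  · filter_upwards [hev] with z hz
    refine Eventually.of_forall fun σ hσ => ?_
    rw [uIoc_of_le hL.le] at hσ
    exact norm_ssH_le' hH hz.le hσ
  · rw [uIoc_of_le hL.le] at hσ
    exact ContinuousAt.comp (f := fun z : ℂ => (z, σ))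
      ((contOn_ssH hH).continuousAt (hO.mem_nhds ⟨mem_univ _, hσ.1⟩)) (by fun_prop)

theorem continuousOn_J1 (hH : BW 1 M H) (hL : 0 < L) :
    ContinuousOn (fun p : ℂ × ℝ => J1 H p.1 p.2) (univ ×ˢ Ioi 0) :=
  (((continuous_J1_end hH hL).comp continuous_fst).continuousOn.sub
    (continuousOn_tail (F := fun z σ => ss σ z * H z σ) (contOn_ssH hH) hL)).congr
    fun p hp => J1_eq hH hL p.1 hp.2

theorem continuousOn_J2 (hH : BW 1 M H) (hL : 0 < L) :
    ContinuousOn (fun p : ℂ × ℝ => J2 L H p.1 p.2) (univ ×ˢ Ioi 0) :=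
  continuousOn_tail (F := fun z σ => yR L σ z * H z σ) (contOn_yRH L hH) hL

theorem hasDerivAt_J1 (hH : BW 1 M H) (hL : 0 < L) (z : ℂ) {τ : ℝ} (hτ : 0 < τ) :
    HasDerivAt (J1 H z) (ss τ z * H z τ) τ := by
  have h := (hasDerivAt_tail (F := fun z σ => ss σ z * H z σ) (contOn_ssH hH) hL z hτ).const_sub
    (J1 H z L)
  rw [neg_neg] at h
  refine h.congr_of_eventuallyEq ?_
  filter_upwards [Ioi_mem_nhds hτ] with s hs
  exact J1_eq hH hL z hs

theorem hasDerivAt_J2 (hH : BW 1 M H) (hL : 0 < L) (z : ℂ) {τ : ℝ} (hτ : 0 < τ) :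
    HasDerivAt (J2 L H z) (-(yR L τ z * H z τ)) τ :=
  hasDerivAt_tail (F := fun z σ => yR L σ z * H z σ) (contOn_yRH L hH) hL z hτ

theorem differentiableOn_J1 (hH : BW 1 M H) {U : Set ℂ} (hU : IsOpen U)
    (hd : ∀ σ ∈ Ioc 0 L, DifferentiableOn ℂ (fun z => H z σ) U) {τ : ℝ} (hτ : τ ∈ Ioc 0 L) :
    DifferentiableOn ℂ (fun z => J1 H z τ) U := by
  intro z₀ hz₀
  have hev : ∀ᶠ z in 𝓝 z₀, z ∈ U ∧ ‖mu z‖ < ‖mu z₀‖ + 1 := (hU.eventually_mem hz₀).and
    (continuous_mu.norm.continuousAt.eventually_lt continuousAt_const (lt_add_one _))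
  obtain ⟨ε, hε, hball⟩ := Metric.eventually_nhds_iff_ball.1 hev
  have hcongr : ∀ z, (fun σ => ss σ z * H z (min |σ| L)) =ᵐ[volume.restrict (Ioc 0 τ)]
      fun σ => ss σ z * H z σ := fun z =>
    (ae_restrict_iff' measurableSet_Ioc).2
      (Eventually.of_forall fun σ hσ => by
        simp only [abs_of_pos hσ.1, min_eq_left (hσ.2.trans hτ.2)])
  have h := differentiableOn_integral_of_bound (μ := volume.restrict (Ioc 0 τ))
    (U := Metric.ball z₀ ε) Metric.isOpen_ball (F := fun z σ => ss σ z * H z (min |σ| L))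
    (bound := fun σ => M * Real.exp ((1 + (‖mu z₀‖ + 1)) * τ) * (√σ)⁻¹)
    (fun z _ => (meas_ssH hH z τ).congr (hcongr z).symm) (fun σ => ?_) ?_ ?_
  · refine ((h.differentiableAt (Metric.ball_mem_nhds z₀ hε)).congr_of_eventuallyEq
      (Eventually.of_forall fun z => ?_)).differentiableWithinAt
    simp only [J1]
    rw [intervalIntegral.integral_of_le hτ.1.le, integral_congr_ae (hcongr z)]
  · by_cases hσ : σ = 0
    · simp [hσ, ss_zero]
    · exact (differentiable_ss σ).differentiableOn.mul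
        ((hd _ ⟨lt_min (abs_pos.2 hσ) (hτ.1.trans_le hτ.2), min_le_right _ _⟩).mono
          fun z hz => (hball z hz).1)
  · refine (ae_restrict_iff' measurableSet_Ioc).2 (Eventually.of_forall fun σ hσ z hz => ?_)
    rw [abs_of_pos hσ.1, min_eq_left (hσ.2.trans hτ.2)]
    exact norm_ssH_le' hH (hball z hz).2.le hσ
  · exact (intervalIntegrable_iff_integrableOn_Ioc_of_le hτ.1.le).1
      ((intervalIntegrable_inv_sqrt hτ.1.le).const_mul _)

theorem differentiableOn_J2 (hH : BW 1 M H) {U : Set ℂ} (hU : IsOpen U)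
    (hd : ∀ σ ∈ Ioc 0 L, DifferentiableOn ℂ (fun z => H z σ) U) {τ : ℝ} (hτ : τ ∈ Ioc 0 L) :
    DifferentiableOn ℂ (fun z => J2 L H z τ) U :=
  differentiableOn_tail (F := fun z σ => yR L σ z * H z σ) (contOn_yRH L hH) hU
    (fun σ hσ => (differentiable_yR L σ).differentiableOn.mul (hd σ hσ)) hτ

theorem green_bound (hK : KR L η K) (hH : BW 1 M H) {z : ℂ} (hz : |z.im| ≤ η) {τ : ℝ}
    (hτ : τ ∈ Ioc 0 L) {A B : ℂ} {α β : ℝ} (hα : 0 ≤ α) (hβ : 0 ≤ β)
    (hA : ‖A / QQ L z‖ ≤ α * Real.exp (-((lam z).re * τ)))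
    (hB : ‖z ^ 2 * B‖ ≤ β * Real.exp ((lam z).re * τ)) :
    ‖z ^ 2 / QQ L z * (A * J1 H z τ + B * J2 L H z τ)‖ ≤
      (12 * Real.exp (3 * L + 5) * α + 2 * K * β) * M * WW z.re τ := by
  have hz1 := hz.trans hK.eta_le
  have hr := lam_re_ge_sq hz1
  have hr0 := lam_re_nonneg z
  have hM := hH.nonneg
  have hKp := hK.K_pos
  have hh0 := hh_pos (z.re * √τ)
  set b : ℝ := (1 + |z.re|) ^ 2 / 4 with hb
  have hb0 : 0 ≤ b := by positivity
  have e : z ^ 2 / QQ L z * (A * J1 H z τ + B * J2 L H z τ) =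
      (∫ σ in (0 : ℝ)..τ, (z ^ 2 / QQ L z * A) * (ss σ z * H z σ)) +
      ∫ σ in τ..L, (z ^ 2 / QQ L z * B) * (yR L σ z * H z σ) := by
    rw [intervalIntegral.integral_const_mul, intervalIntegral.integral_const_mul, J1, J2]
    ring
  have h1 : ‖∫ σ in (0 : ℝ)..τ, (z ^ 2 / QQ L z * A) * (ss σ z * H z σ)‖ ≤
      ∫ σ in (0 : ℝ)..τ, (4 * Real.exp (3 * L + 5) * α * M * hh (z.re * √τ)) *
        (b * Real.exp (-(b * (τ - σ))) * (√σ)⁻¹) := by
    refine intervalIntegral.norm_integral_le_of_norm_le hτ.1.le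
      (Eventually.of_forall fun σ hσ => ?_) ((intervalIntegrable_left b hτ.1.le).const_mul _)
    have k1 := norm_ssH_le hH z hσ.1
    have k3 := key_left hr hσ.1.le hσ.2 hτ.2
    have k4 : Real.exp (-((lam z).re * τ)) * Real.exp ((lam z).re * σ) =
        Real.exp (-((lam z).re * (τ - σ))) := by
      rw [← Real.exp_add]; congr 1; ring
    have k5 : ‖z ^ 2‖ ≤ 4 * b := by
      have := norm_le_one_add hz1
      rw [norm_pow, hb, mul_div_cancel₀ _ (by norm_num : (4 : ℝ) ≠ 0)]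
      gcongr
    have k6 : (z ^ 2 / QQ L z * A) * (ss σ z * H z σ) =
        z ^ 2 * (A / QQ L z) * (ss σ z * H z σ) := by ring
    rw [k6, norm_mul, norm_mul]
    calc ‖z ^ 2‖ * ‖A / QQ L z‖ * ‖ss σ z * H z σ‖
        ≤ (4 * b) * (α * Real.exp (-((lam z).re * τ))) *
          (M * (Real.exp ((lam z).re * σ) * hh (z.re * √σ)) * (√σ)⁻¹) := by gcongr
      _ = 4 * b * α * M * (√σ)⁻¹ * (Real.exp (-((lam z).re * (τ - σ))) * hh (z.re * √σ)) := by
          rw [← k4]; ring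
      _ ≤ 4 * b * α * M * (√σ)⁻¹ *
          (Real.exp (3 * L + 5) * Real.exp (-(b * (τ - σ))) * hh (z.re * √τ)) := by gcongr
      _ = _ := by ring
  have h2 : ‖∫ σ in τ..L, (z ^ 2 / QQ L z * B) * (yR L σ z * H z σ)‖ ≤
      ∫ σ in τ..L, (K * β * M * hh (z.re * √τ)) * ((√σ)⁻¹ / σ) := by
    refine intervalIntegral.norm_integral_le_of_norm_le hτ.2
      (Eventually.of_forall fun σ hσ => ?_)
      ((continuousOn_right hτ.1 hτ.2).intervalIntegrable.const_mul _)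
    have hσ0 : 0 < σ := hτ.1.trans hσ.1
    have k1 := hK.bR z hz σ ⟨hσ0.le, hσ.2⟩
    have k2 := hH.bd z σ hσ0
    have k3 : hh (z.re * √σ) ≤ hh (z.re * √τ) := by
      apply hh_anti
      rw [abs_mul, abs_mul, abs_of_nonneg (Real.sqrt_nonneg _), abs_of_nonneg (Real.sqrt_nonneg _)]
      exact mul_le_mul_of_nonneg_left (Real.sqrt_le_sqrt hσ.1.le) (abs_nonneg _)
    have k4 : Real.exp ((lam z).re * τ) * Real.exp (-((lam z).re * σ)) ≤ 1 := by
      rw [← Real.exp_add]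
      exact Real.exp_le_one_iff.2 (by nlinarith [hσ.1])
    have k5 : (z ^ 2 / QQ L z * B) * (yR L σ z * H z σ) =
        (z ^ 2 * B) * (yR L σ z / QQ L z) * H z σ := by ring
    have k6 := hh_pos (z.re * √σ)
    rw [k5, norm_mul, norm_mul (z ^ 2 * B)]
    calc ‖z ^ 2 * B‖ * ‖yR L σ z / QQ L z‖ * ‖H z σ‖
        ≤ (β * Real.exp ((lam z).re * τ)) * (K * Real.exp (-((lam z).re * σ))) *
          (M * (WW z.re σ / σ ^ 1)) := by gcongr
      _ = K * β * M * ((Real.exp ((lam z).re * τ) * Real.exp (-((lam z).re * σ))) *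
          hh (z.re * √σ)) * ((√σ)⁻¹ / σ) := by unfold WW; ring
      _ ≤ K * β * M * (1 * hh (z.re * √τ)) * ((√σ)⁻¹ / σ) := by gcongr
      _ = _ := by ring
  rw [intervalIntegral.integral_const_mul (4 * Real.exp (3 * L + 5) * α * M * hh (z.re * √τ))]
    at h1
  rw [intervalIntegral.integral_const_mul (K * β * M * hh (z.re * √τ))] at h2
  have h3 := integral_left_le hb0 hτ.1
  have h4 := integral_right_le hτ.1 hτ.2
  rw [e]
  refine (norm_add_le _ _).trans ((add_le_add h1 h2).trans ?_)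
  calc _ ≤ (4 * Real.exp (3 * L + 5) * α * M * hh (z.re * √τ)) * (3 * (√τ)⁻¹) +
        (K * β * M * hh (z.re * √τ)) * (2 * (√τ)⁻¹) := by gcongr
    _ = _ := by unfold WW; ring

end Pool.Agent.P.MP_38bfeb_an
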