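import Pool.Agent.P.MP_0afb51_an.Kernel

/-!
Green kernel with a Dirichlet condition at the blow-up time.
-/

namespace Pool.Agent.P.MP_38bfeb_an

open Complex Set Filter Topology MeasureTheory Pool.Agent.P.MP_0afb51_an
open scoped ComplexConjugate

theorem lam_re_ge_sq {z : ℂ} (hz : |z.im| ≤ 1 / 4) : z.re ^ 2 - 2 ≤ (lam z).re := by
  have h0 := lam_re_nonneg z
  have h1 : (lam z ^ 2).re = (mu z).re := by rw [lam_sq]
  have h2 : (mu z).re = z.re ^ 4 - 6 * z.re ^ 2 * z.im ^ 2 + z.im ^ 4 - z.re ^ 2 + z.im ^ 2 := by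
    simp [mu, pow_succ]; ring
  have h3 : (lam z ^ 2).re = (lam z).re ^ 2 - (lam z).im ^ 2 := by
    simp [pow_succ]
  have hy : z.im ^ 2 ≤ 1 / 16 := by nlinarith [sq_abs z.im, abs_nonneg z.im]
  by_cases hx : z.re ^ 2 - 2 ≤ 0
  · linarith
  · push Not at hx
    have h4 : z.re ^ 4 - 11 / 8 * z.re ^ 2 ≤ (lam z).re ^ 2 := by
      nlinarith [sq_nonneg (lam z).im, sq_nonneg (z.im ^ 2), sq_nonneg z.im, sq_nonneg z.re]
    have h5 : (z.re ^ 2 - 2) ^ 2 ≤ (lam z).re ^ 2 := by nlinarith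
    exact (abs_le_of_sq_le_sq' h5 h0).2

theorem norm_ss_le (z : ℂ) {σ : ℝ} (hσ : 0 ≤ σ) : ‖ss σ z‖ ≤ σ * Real.exp ((lam z).re * σ) := by
  have h1 : ∫ s in (0 : ℝ)..σ, cc s z = ss σ z - ss 0 z :=
    intervalIntegral.integral_eq_sub_of_hasDerivAt (f := fun s => ss s z)
      (fun s _ => hasDerivAt_ss z s) (Continuous.intervalIntegrable (by fun_prop) _ _)
  rw [ss_zero, sub_zero] at h1
  rw [← h1]
  have h2 := intervalIntegral.norm_integral_le_of_norm_le_const (a := 0) (b := σ)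
    (f := fun s => cc s z) (C := Real.exp ((lam z).re * σ)) ?_
  · rw [sub_zero, abs_of_nonneg hσ, mul_comm] at h2
    exact h2
  · intro s hs
    rw [uIoc_of_le hσ] at hs
    refine (norm_cc_le z hs.1.le).trans (Real.exp_le_exp.2 ?_)
    exact mul_le_mul_of_nonneg_left hs.2 (lam_re_nonneg z)

theorem lam_re_le (z : ℂ) : (lam z).re ≤ 1 + ‖mu z‖ := by
  have h1 : ‖lam z‖ ^ 2 = ‖mu z‖ := by rw [← norm_pow, lam_sq]
  have h2 := Complex.re_le_norm (lam z)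
  nlinarith [norm_nonneg (lam z), sq_nonneg (‖lam z‖ - 1)]

/-- The solution adapted to the far end of the time interval. -/
noncomputable def yR (L t : ℝ) (z : ℂ) : ℂ := cc L z * cc (L - t) z + cc t z

/-- Its time derivative. -/
noncomputable def yRd (L t : ℝ) (z : ℂ) : ℂ := -(cc L z * (mu z * ss (L - t) z)) + mu z * ss t z

theorem hasDerivAt_yR (L : ℝ) (z : ℂ) (t : ℝ) :
    HasDerivAt (fun s => yR L s z) (yRd L t z) t := by
  have h1 : HasDerivAt (fun s : ℝ => cc (L - s) z) (-(mu z * ss (L - t) z)) t :=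
    (hasDerivAt_cc z (L - t)).comp_const_sub L t
  refine ((h1.const_mul (cc L z)).add (hasDerivAt_cc z t)).congr_deriv ?_
  unfold yRd
  ring

theorem hasDerivAt_yRd (L : ℝ) (z : ℂ) (t : ℝ) :
    HasDerivAt (fun s => yRd L s z) (mu z * yR L t z) t := by
  have h1 : HasDerivAt (fun s : ℝ => ss (L - s) z) (-cc (L - t) z) t :=
    (hasDerivAt_ss z (L - t)).comp_const_sub L t
  refine (((h1.const_mul (mu z)).const_mul (cc L z)).neg.add
    ((hasDerivAt_ss z t).const_mul (mu z))).congr_deriv ?_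
  unfold yR
  ring

theorem wronskianR (L t : ℝ) (z : ℂ) :
    yRd L t z * ss t z - cc t z * yR L t z = -QQ L z := by
  have h1 := cc_add (L - t) t z
  rw [sub_add_cancel] at h1
  have h2 := cc_sq_sub t z
  unfold yRd yR QQ
  linear_combination (cc L z) * h1 - h2

@[fun_prop]
theorem continuous_yR_comp (L : ℝ) {X : Type*} [TopologicalSpace X] {f : X → ℝ} {g : X → ℂ}
    (hf : Continuous f) (hg : Continuous g) : Continuous fun x => yR L (f x) (g x) := by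
  unfold yR; fun_prop

theorem continuous_yRd_comp (L : ℝ) {X : Type*} [TopologicalSpace X] {f : X → ℝ} {g : X → ℂ}
    (hf : Continuous f) (hg : Continuous g) : Continuous fun x => yRd L (f x) (g x) := by
  have := continuous_mu.comp hg
  unfold yRd
  exact ((continuous_cc_comp continuous_const hg).mul (this.mul
    (continuous_ss_comp (continuous_const.sub hf) hg))).neg.add
      (this.mul (continuous_ss_comp hf hg))

@[fun_prop]
theorem differentiable_yR (L t : ℝ) : Differentiable ℂ fun z => yR L t z := by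
  unfold yR; fun_prop

theorem yR_neg (L t : ℝ) (z : ℂ) : yR L t (-z) = yR L t z := by simp [yR, cc_neg]

theorem conj_yR (L t k : ℝ) : conj (yR L t k) = yR L t k := by simp [yR, conj_cc]

/-- All kernel bounds, on a strip of half-width `η`, with constant `K`. -/
structure KR (L η K : ℝ) : Prop where
  eta_pos : 0 < η
  eta_le : η ≤ 1 / 4
  K_pos : 0 < K
  ne : ∀ z : ℂ, |z.im| ≤ η → QQ L z ≠ 0
  bs : ∀ z : ℂ, |z.im| ≤ η → ∀ t ∈ Icc 0 L,
    ‖z ^ 2 * ss t z‖ ≤ K * Real.exp ((lam z).re * t)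
  bR : ∀ z : ℂ, |z.im| ≤ η → ∀ t ∈ Icc 0 L,
    ‖yR L t z / QQ L z‖ ≤ K * Real.exp (-((lam z).re * t))
  dR : ∀ z : ℂ, |z.im| ≤ η → ∀ t ∈ Icc 0 L,
    ‖yRd L t z / QQ L z‖ ≤ K * (1 + |z.re|) ^ 2 * Real.exp (-((lam z).re * t))

theorem exists_KR {L : ℝ} (hL : 1 ≤ L) : ∃ η K, KR L η K := by
  obtain ⟨η, κ, hη, hη', hκ, hQ⟩ := exists_QQ_bound hL
  obtain ⟨K₁, hK₁, hss⟩ := exists_ss_bound L
  have hQpos : ∀ z : ℂ, |z.im| ≤ η → 0 < ‖QQ L z‖ := fun z hz =>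
    lt_of_lt_of_le (by positivity) (hQ z hz)
  have hinv : ∀ z : ℂ, |z.im| ≤ η →
      ‖QQ L z‖⁻¹ ≤ κ⁻¹ * Real.exp (-((lam z).re * L)) ^ 2 := by
    intro z hz
    rw [Real.exp_neg, inv_pow, ← mul_inv]
    exact inv_anti₀ (by positivity) (hQ z hz)
  have hmain : ∀ z : ℂ, |z.im| ≤ η → ∀ t ∈ Icc 0 L, ∀ (A B : ℂ) (β : ℝ), 0 ≤ β →
      ‖A‖ ≤ β * Real.exp ((lam z).re * (L - t)) → ‖B‖ ≤ β * Real.exp ((lam z).re * t) →
      (‖cc L z‖ * ‖A‖ + ‖B‖) * ‖QQ L z‖⁻¹ ≤ 2 * κ⁻¹ * β * Real.exp (-((lam z).re * t)) := by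
    intro z hz t ht A B β hβ hA hB
    have h1 := norm_cc_le z (τ := L) (by linarith)
    have h4 := hinv z hz
    have hr := lam_re_nonneg z
    set r := (lam z).re
    have e1 : Real.exp (r * L) * Real.exp (r * (L - t)) * Real.exp (-(r * L)) ^ 2 =
        Real.exp (-(r * t)) := by
      rw [sq, ← Real.exp_add, ← Real.exp_add, ← Real.exp_add]; congr 1; ring
    have e2 : Real.exp (r * t) * Real.exp (-(r * L)) ^ 2 ≤ Real.exp (-(r * t)) := by
      rw [sq, ← Real.exp_add, ← Real.exp_add]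
      apply Real.exp_le_exp.2
      nlinarith [ht.2]
    calc (‖cc L z‖ * ‖A‖ + ‖B‖) * ‖QQ L z‖⁻¹
        ≤ (Real.exp (r * L) * (β * Real.exp (r * (L - t))) + β * Real.exp (r * t)) *
          (κ⁻¹ * Real.exp (-(r * L)) ^ 2) := by gcongr
      _ = κ⁻¹ * β * (Real.exp (r * L) * Real.exp (r * (L - t)) * Real.exp (-(r * L)) ^ 2 +
            Real.exp (r * t) * Real.exp (-(r * L)) ^ 2) := by ring
      _ ≤ κ⁻¹ * β * (Real.exp (-(r * t)) + Real.exp (-(r * t))) := by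
          rw [e1]; gcongr
      _ = _ := by ring
  have hmu : ∀ z : ℂ, |z.im| ≤ η → ∀ t ∈ Icc 0 L,
      ‖mu z * ss t z‖ ≤ 2 * K₁ * (1 + |z.re|) ^ 2 * Real.exp ((lam z).re * t) := by
    intro z hz t ht
    have hz1 : |z.im| ≤ 1 / 4 := hz.trans hη'
    have h1 := norm_mu_le hz1
    have h2 := hss z hz1 t ht
    rw [norm_mul]
    calc ‖mu z‖ * ‖ss t z‖ ≤ 2 * (1 + |z.re|) ^ 4 * ‖ss t z‖ := by gcongr
      _ = 2 * (1 + |z.re|) ^ 2 * ((1 + |z.re|) ^ 2 * ‖ss t z‖) := by ring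
      _ ≤ 2 * (1 + |z.re|) ^ 2 * (K₁ * Real.exp ((lam z).re * t)) := by gcongr
      _ = _ := by ring
  have hκi : 0 < κ⁻¹ := by positivity
  have hKκ : 0 < 4 * K₁ * κ⁻¹ := by positivity
  refine ⟨η, K₁ + 2 * κ⁻¹ + 4 * K₁ * κ⁻¹, hη, hη', by positivity,
    fun z hz => norm_pos_iff.1 (hQpos z hz), fun z hz t ht => ?_,
    fun z hz t ht => ?_, fun z hz t ht => ?_⟩
  · have hz1 : |z.im| ≤ 1 / 4 := hz.trans hη'
    have h2 := hss z hz1 t ht
    have h5 : ‖z‖ ^ 2 ≤ (1 + |z.re|) ^ 2 := by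
      have := norm_le_one_add hz1
      gcongr
    rw [norm_mul, norm_pow]
    calc ‖z‖ ^ 2 * ‖ss t z‖ ≤ (1 + |z.re|) ^ 2 * ‖ss t z‖ := by gcongr
      _ ≤ K₁ * Real.exp ((lam z).re * t) := h2
      _ ≤ _ := by gcongr; linarith
  · have h := hmain z hz t ht (cc (L - t) z) (cc t z) 1 zero_le_one
      (by simpa using norm_cc_le z (τ := L - t) (by linarith [ht.2]))
      (by simpa using norm_cc_le z ht.1)
    have h6 : ‖yR L t z‖ ≤ ‖cc L z‖ * ‖cc (L - t) z‖ + ‖cc t z‖ := by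
      rw [← norm_mul]; exact norm_add_le _ _
    rw [norm_div, div_eq_mul_inv]
    calc ‖yR L t z‖ * ‖QQ L z‖⁻¹ ≤ (‖cc L z‖ * ‖cc (L - t) z‖ + ‖cc t z‖) * ‖QQ L z‖⁻¹ := by gcongr
      _ ≤ 2 * κ⁻¹ * 1 * Real.exp (-((lam z).re * t)) := h
      _ ≤ _ := by gcongr; linarith
  · have h := hmain z hz t ht (mu z * ss (L - t) z) (mu z * ss t z) (2 * K₁ * (1 + |z.re|) ^ 2)
      (by positivity) (hmu z hz (L - t) ⟨by linarith [ht.2], by linarith [ht.1]⟩) (hmu z hz t ht)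
    have h6 : ‖yRd L t z‖ ≤ ‖cc L z‖ * ‖mu z * ss (L - t) z‖ + ‖mu z * ss t z‖ := by
      rw [← norm_mul, ← norm_neg (cc L z * (mu z * ss (L - t) z))]; exact norm_add_le _ _
    rw [norm_div, div_eq_mul_inv]
    calc ‖yRd L t z‖ * ‖QQ L z‖⁻¹
        ≤ (‖cc L z‖ * ‖mu z * ss (L - t) z‖ + ‖mu z * ss t z‖) * ‖QQ L z‖⁻¹ := by gcongr
      _ ≤ 2 * κ⁻¹ * (2 * K₁ * (1 + |z.re|) ^ 2) * Real.exp (-((lam z).re * t)) := h
      _ = 4 * K₁ * κ⁻¹ * (1 + |z.re|) ^ 2 * Real.exp (-((lam z).re * t)) := by ring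
      _ ≤ _ := by gcongr; linarith

end Pool.Agent.P.MP_38bfeb_an
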