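import Pool.Agent.P.MP_0afb51_an.Decay
import Pool.Agent.P.MP_38bfeb_an.Weight

/-!
From the Fourier side to physical space, for functions controlled only away from `τ = 0`.
-/

namespace Pool.Agent.P.MP_38bfeb_an

open Complex Set Filter Topology MeasureTheory Pool.Agent.P.MP_0afb51_an
open scoped ComplexConjugate Convolution

/-- Admissible functions of real frequency and time. -/
structure Ad (L : ℝ) (f : ℝ → ℝ → ℂ) : Prop where
  cont : ContinuousOn (fun p : ℝ × ℝ => f p.1 p.2) (univ ×ˢ Ioi 0)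
  bd : ∀ δ : ℝ, 0 < δ → ∃ (M : ℝ) (m : ℕ), 0 ≤ M ∧
    ∀ k, ∀ τ ∈ Icc δ L, ‖f k τ‖ ≤ M * (1 + |k|) ^ m * Real.exp (-(√δ * |k|))

variable {L : ℝ} {f g : ℝ → ℝ → ℂ}

theorem Ad.of_WW (hc : ContinuousOn (fun p : ℝ × ℝ => f p.1 p.2) (univ ×ˢ Ioi 0)) {M : ℝ}
    (hM : 0 ≤ M) (m j : ℕ)
    (hb : ∀ k, ∀ τ ∈ Ioc 0 L, ‖f k τ‖ ≤ M * (1 + |k|) ^ m * (WW k τ / τ ^ j)) : Ad L f := by
  refine ⟨hc, fun δ hδ => ⟨M * ((√δ)⁻¹ / δ ^ j), m, by positivity, fun k τ hτ => ?_⟩⟩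
  have hτ0 := hδ.trans_le hτ.1
  have h1 := WW_le_exp hδ hτ.1 k
  calc ‖f k τ‖ ≤ M * (1 + |k|) ^ m * (WW k τ / τ ^ j) := hb k τ ⟨hτ0, hτ.2⟩
    _ ≤ M * (1 + |k|) ^ m * ((√δ)⁻¹ * Real.exp (-(√δ * |k|)) / δ ^ j) := by
        gcongr
        exact hτ.1
    _ = _ := by ring

theorem Ad.mulXp (hf : Ad L f) (i : ℕ) : Ad L (Xp i f) := by
  refine ⟨ContinuousOn.mul (by fun_prop) hf.cont, fun δ hδ => ?_⟩
  obtain ⟨M, m, hM, hb⟩ := hf.bd δ hδ
  refine ⟨M, m + i, hM, fun k t ht => ?_⟩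
  have h1 : ‖(I * k : ℂ) ^ i‖ ≤ (1 + |k|) ^ i := by
    rw [norm_pow, norm_mul, Complex.norm_I, one_mul, Complex.norm_real, Real.norm_eq_abs]
    gcongr
    linarith
  have h2 := hb k t ht
  unfold Xp
  rw [norm_mul]
  calc ‖(I * k : ℂ) ^ i‖ * ‖f k t‖
      ≤ (1 + |k|) ^ i * (M * (1 + |k|) ^ m * Real.exp (-(√δ * |k|))) := by gcongr
    _ = _ := by ring

theorem Ad.add (hf : Ad L f) (hg : Ad L g) : Ad L fun k t => f k t + g k t := by
  refine ⟨hf.cont.add hg.cont, fun δ hδ => ?_⟩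
  obtain ⟨M, m, hM, hb⟩ := hf.bd δ hδ
  obtain ⟨N, n, hN, hc⟩ := hg.bd δ hδ
  refine ⟨M + N, m + n, by positivity, fun k t ht => ?_⟩
  have h0 : 1 ≤ 1 + |k| := by linarith [abs_nonneg k]
  have h1 : (1 + |k|) ^ m ≤ (1 + |k|) ^ (m + n) := pow_le_pow_right₀ h0 (by omega)
  have h2 : (1 + |k|) ^ n ≤ (1 + |k|) ^ (m + n) := pow_le_pow_right₀ h0 (by omega)
  calc ‖f k t + g k t‖ ≤ M * (1 + |k|) ^ m * Real.exp (-(√δ * |k|)) +
        N * (1 + |k|) ^ n * Real.exp (-(√δ * |k|)) :=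
        (norm_add_le _ _).trans (add_le_add (hb k t ht) (hc k t ht))
    _ ≤ M * (1 + |k|) ^ (m + n) * Real.exp (-(√δ * |k|)) +
        N * (1 + |k|) ^ (m + n) * Real.exp (-(√δ * |k|)) := by gcongr
    _ = _ := by ring

theorem Ad.loc (hf : Ad L f) {t₀ : ℝ} (ht₀ : t₀ ∈ Ioo 0 L) :
    ∃ C : ℝ, ∀ᶠ t in 𝓝 t₀, ∀ k, ‖f k t‖ ≤ C * (1 + k ^ 2)⁻¹ := by
  have hδ := half_pos ht₀.1
  obtain ⟨M, m, hM, hb⟩ := hf.bd _ hδ
  obtain ⟨C, hC, hC'⟩ := exists_poly_exp_le (Real.sqrt_pos.2 hδ) m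
  refine ⟨M * C, ?_⟩
  filter_upwards [Icc_mem_nhds (half_lt_self ht₀.1) ht₀.2] with t ht k
  calc ‖f k t‖ ≤ M * (1 + |k|) ^ m * Real.exp (-(√(t₀ / 2) * |k|)) := hb k t ht
    _ = M * ((1 + |k|) ^ m * Real.exp (-(√(t₀ / 2) * |k|))) := by ring
    _ ≤ M * (C * (1 + k ^ 2)⁻¹) := mul_le_mul_of_nonneg_left (hC' k) hM
    _ = _ := by ring

theorem Ad.cont_k (hf : Ad L f) {t : ℝ} (ht : 0 < t) : Continuous fun k => f k t :=
  hf.cont.comp_continuous (f := fun k : ℝ => (k, t)) (by fun_prop) fun _ => ⟨mem_univ _, ht⟩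

theorem Ad.meas (hf : Ad L f) (x : ℝ) {t : ℝ} (ht : 0 < t) :
    AEStronglyMeasurable (fun k : ℝ => exp (I * k * x) * f k t) volume :=
  (Continuous.mul (by fun_prop) (hf.cont_k ht)).aestronglyMeasurable

theorem Ad.integrable (hf : Ad L f) (x : ℝ) {t : ℝ} (ht : t ∈ Ioo 0 L) :
    Integrable fun k : ℝ => exp (I * k * x) * f k t := by
  obtain ⟨C, hC⟩ := hf.loc ht
  refine (integrable_inv_one_add_sq.const_mul C).mono' (hf.meas x ht.1)
    (Eventually.of_forall fun k => ?_)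
  rw [norm_mul, norm_exp_I_mul, one_mul]
  exact hC.self_of_nhds k

theorem Ad.continuousOn_FT (hf : Ad L f) :
    ContinuousOn (fun p : ℝ × ℝ => FT f p.1 p.2) (univ ×ˢ Ioo 0 L) := by
  rintro ⟨x, t⟩ ⟨-, ht⟩
  obtain ⟨C, hC⟩ := hf.loc ht
  have hO : IsOpen ((univ : Set ℝ) ×ˢ Ioi (0 : ℝ)) := isOpen_univ.prod isOpen_Ioi
  refine ContinuousAt.continuousWithinAt ?_
  refine continuousAt_of_dominated (bound := fun k => C * (1 + k ^ 2)⁻¹)
    (F := fun (p : ℝ × ℝ) (k : ℝ) => exp (I * k * p.1) * f k p.2) ?_ ?_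
    (integrable_inv_one_add_sq.const_mul C) (Eventually.of_forall fun k => ?_)
  · filter_upwards [(continuous_snd.tendsto (x, t)).eventually (Ioi_mem_nhds ht.1)] with p hp
    exact hf.meas p.1 hp
  · filter_upwards [(continuous_snd.tendsto (x, t)).eventually hC] with p hp
    refine Eventually.of_forall fun k => ?_
    rw [norm_mul, norm_exp_I_mul, one_mul]
    exact hp k
  · refine ContinuousAt.mul (by fun_prop) ?_
    exact ContinuousAt.comp (f := fun p : ℝ × ℝ => (k, p.2)) (x := (x, t))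
      (hf.cont.continuousAt (hO.mem_nhds ⟨mem_univ _, ht.1⟩)) (by fun_prop)

theorem Ad.hasDerivAt_x (hf : Ad L f) (i : ℕ) (x : ℝ) {t : ℝ} (ht : t ∈ Ioo 0 L) :
    HasDerivAt (fun y => FT (Xp i f) y t) (FT (Xp (i + 1) f) x t) x := by
  obtain ⟨C, hC⟩ := (hf.mulXp (i + 1)).loc ht
  refine (hasDerivAt_integral_of_dominated_loc_of_deriv_le (μ := volume) (s := univ)
    (F := fun (y k : ℝ) => exp (I * k * y) * Xp i f k t)
    (F' := fun (y k : ℝ) => exp (I * k * y) * Xp (i + 1) f k t)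
    (bound := fun k => C * (1 + k ^ 2)⁻¹) univ_mem
    (Eventually.of_forall fun y => (hf.mulXp i).meas y ht.1) ((hf.mulXp i).integrable x ht)
    ((hf.mulXp (i + 1)).meas x ht.1) (Eventually.of_forall fun k y _ => ?_)
    (integrable_inv_one_add_sq.const_mul C) (Eventually.of_forall fun k y _ => ?_)).2
  · rw [norm_mul, norm_exp_I_mul, one_mul]
    exact hC.self_of_nhds k
  · have h1 : HasDerivAt (fun y : ℝ => I * k * (y : ℂ)) (I * k) y := by
      simpa using (Complex.ofRealCLM.hasDerivAt (x := y)).const_mul (I * k)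
    refine (h1.cexp.mul_const _).congr_deriv ?_
    unfold Xp
    ring

theorem Ad.hasDerivAt_t (hf : Ad L f) (hg : Ad L g)
    (hd : ∀ k, ∀ t ∈ Ioo 0 L, HasDerivAt (f k) (g k t) t)
    (x : ℝ) {t : ℝ} (ht : t ∈ Ioo 0 L) : HasDerivAt (FT f x) (FT g x t) t := by
  obtain ⟨C, hC⟩ := hg.loc ht
  refine (hasDerivAt_integral_of_dominated_loc_of_deriv_le (μ := volume)
    (s := {s | s ∈ Ioo 0 L ∧ ∀ k, ‖g k s‖ ≤ C * (1 + k ^ 2)⁻¹})
    (F := fun (s k : ℝ) => exp (I * k * x) * f k s)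
    (F' := fun (s k : ℝ) => exp (I * k * x) * g k s)
    (bound := fun k => C * (1 + k ^ 2)⁻¹) (Filter.inter_mem (isOpen_Ioo.mem_nhds ht) hC)
    (Filter.mem_of_superset (Ioi_mem_nhds ht.1) fun s hs => hf.meas x hs) (hf.integrable x ht)
    (hg.meas x ht.1) (Eventually.of_forall fun k s hs => ?_)
    (integrable_inv_one_add_sq.const_mul C) (Eventually.of_forall fun k s hs => ?_)).2
  · rw [norm_mul, norm_exp_I_mul, one_mul]
    exact hs.2 k
  · exact (hd k s hs.1).const_mul _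

theorem FT_conv' {H : ℝ → ℝ → ℂ} (hf : Ad L f) {t : ℝ}
    (ht : t ∈ Ioo 0 L) (hH : ∀ k, H k t = ∫ l : ℝ, f (k - l) t * f l t) (x : ℝ) :
    FT H x t = FT f x t * FT f x t := by
  have h := integral_convolution (ContinuousLinearMap.mul ℂ ℂ) (μ := volume) (ν := volume)
    (hf.integrable x ht) (hf.integrable x ht)
  simp only [ContinuousLinearMap.mul_apply'] at h
  unfold FT
  rw [← h]
  congr 1
  funext k
  rw [hH, convolution_def, ← integral_const_mul]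
  congr 1
  funext l
  simp only [ContinuousLinearMap.mul_apply']
  have : exp (I * k * x) = exp (I * l * x) * exp (I * ((k - l : ℝ) : ℂ) * x) := by
    rw [← Complex.exp_add]; congr 1; push_cast; ring
  rw [this]
  ring

theorem FT_add' (hf : Ad L f) (hg : Ad L g) (x : ℝ) {t : ℝ} (ht : t ∈ Ioo 0 L) :
    FT (fun k t => f k t + g k t) x t = FT f x t + FT g x t := by
  unfold FT
  rw [← integral_add (hf.integrable x ht) (hg.integrable x ht)]
  congr 1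
  funext k
  ring

theorem norm_FT_le {M τ : ℝ} (hM : 0 ≤ M) (hτ : 0 < τ) (hb : ∀ k, ‖f k τ‖ ≤ M * WW k τ) (x : ℝ) :
    ‖FT f x τ‖ ≤ M * Real.pi / τ := by
  have hp := Real.sqrt_pos.2 hτ
  have hp2 := Real.sq_sqrt hτ.le
  refine (norm_integral_le_of_norm_le ((integrable_scaled hp).const_mul (M / √τ))
    (Eventually.of_forall fun k => ?_)).trans (le_of_eq ?_)
  · rw [norm_mul, norm_exp_I_mul, one_mul]
    refine (hb k).trans ?_
    have := hh_le_inv (k * √τ)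
    calc M * WW k τ = M / √τ * hh (k * √τ) := by unfold WW; ring
      _ ≤ _ := by gcongr
  · rw [integral_const_mul, integral_scaled hp, div_mul_div_comm, ← sq, hp2]

theorem decay' {η γ : ℝ} (hη : 0 < η) (hη' : η ≤ 1 / 4) (hγ : 0 < γ) (i N : ℕ) :
    ∃ C : ℝ, ∀ (g : ℂ → ℂ) (M : ℝ), 0 ≤ M → DifferentiableOn ℂ g (strip η) →
      (∀ z, ‖g z‖ ≤ M * Real.exp (-(γ * |z.re|))) → ∀ x : ℝ,
      (1 + |x|) ^ N * ‖∫ k : ℝ, exp (I * k * x) * ((I * k) ^ i * g k)‖ ≤ C * M := by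
  obtain ⟨C₁, hC₁, h₁⟩ := exists_poly_exp_le hγ i
  obtain ⟨C₂, hC₂, h₂⟩ := exists_poly_exp_le (half_pos hη) N
  refine ⟨C₂ * (C₁ * Real.pi), fun g M hM hd hg x => ?_⟩
  let f : ℂ → ℂ := fun z => exp (I * z * x) * ((I * z) ^ i * g z)
  have hb : ∀ z ∈ strip η, ‖f z‖ ≤ Real.exp (-(z.im * x)) * (M * C₁ * (1 + z.re ^ 2)⁻¹) := by
    intro z hz
    have e1 : ‖exp (I * z * x)‖ = Real.exp (-(z.im * x)) := by
      rw [Complex.norm_exp]; simp
    have e2 : ‖(I * z) ^ i‖ ≤ (1 + |z.re|) ^ i := by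
      rw [norm_pow, norm_mul, Complex.norm_I, one_mul]
      have h1 := Complex.norm_le_abs_re_add_abs_im z
      have h2 : |z.im| < η := hz
      gcongr
      linarith
    have e3 := hg z
    simp only [f]
    rw [norm_mul, norm_mul ((I * z) ^ i), e1]
    refine mul_le_mul_of_nonneg_left ?_ (Real.exp_pos _).le
    calc ‖(I * z) ^ i‖ * ‖g z‖ ≤ (1 + |z.re|) ^ i * (M * Real.exp (-(γ * |z.re|))) := by gcongr
      _ = M * ((1 + |z.re|) ^ i * Real.exp (-(γ * |z.re|))) := by ring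
      _ ≤ M * (C₁ * (1 + z.re ^ 2)⁻¹) := mul_le_mul_of_nonneg_left (h₁ _) hM
      _ = _ := by ring
  obtain ⟨y, hy1, hy2⟩ : ∃ y : ℝ, |y| < η ∧ y * x = η / 2 * |x| := by
    rcases le_total 0 x with h | h
    · exact ⟨η / 2, by rw [abs_of_pos (half_pos hη)]; linarith, by rw [abs_of_nonneg h]⟩
    · exact ⟨-(η / 2), by rw [abs_neg, abs_of_pos (half_pos hη)]; linarith,
        by rw [abs_of_nonpos h]; ring⟩
  have hshift := integral_shift (f := f) (η := η)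
    (g := fun k => Real.exp (η * |x|) * (M * C₁ * (1 + k ^ 2)⁻¹)) ?_ ?_ ?_ ?_ ?_ hy1
  · have hn : ‖∫ k : ℝ, f (k + y * I)‖ ≤
        ∫ k : ℝ, Real.exp (-(η / 2 * |x|)) * (M * C₁ * (1 + k ^ 2)⁻¹) := by
      refine norm_integral_le_of_norm_le ((integrable_inv_one_add_sq.const_mul _).const_mul _)
        (Eventually.of_forall fun k => ?_)
      have := hb (k + y * I) (by simpa [strip] using hy1)
      simpa [hy2] using this
    rw [integral_const_mul, integral_const_mul, integral_univ_inv_one_add_sq] at hn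
    change (1 + |x|) ^ N * ‖∫ k : ℝ, f k‖ ≤ _
    rw [hshift]
    have h3 : C₂ * (1 + x ^ 2)⁻¹ ≤ C₂ * 1 := by
      gcongr
      exact inv_le_one_of_one_le₀ (by nlinarith [sq_nonneg x])
    calc (1 + |x|) ^ N * ‖∫ k : ℝ, f (k + y * I)‖
        ≤ (1 + |x|) ^ N * (Real.exp (-(η / 2 * |x|)) * (M * C₁ * Real.pi)) := by gcongr
      _ = ((1 + |x|) ^ N * Real.exp (-(η / 2 * |x|))) * (M * C₁ * Real.pi) := by ring
      _ ≤ C₂ * (M * C₁ * Real.pi) := by
        gcongr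
        linarith [h₂ x]
      _ = _ := by ring
  · simp only [f]
    exact DifferentiableOn.mul (by fun_prop) (DifferentiableOn.mul (by fun_prop) hd)
  · intro z hz
    refine (hb z hz).trans ?_
    gcongr
    have h2 : |z.im| < η := hz
    have h3 := neg_abs_le (z.im * x)
    rw [abs_mul] at h3
    nlinarith [abs_nonneg x]
  · exact (integrable_inv_one_add_sq.const_mul _).const_mul _
  · simpa using (tendsto_inv_one_add_sq_atTop.const_mul (M * C₁)).const_mul (Real.exp (η * |x|))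
  · simpa using (tendsto_inv_one_add_sq_atBot.const_mul (M * C₁)).const_mul (Real.exp (η * |x|))

end Pool.Agent.P.MP_38bfeb_an
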