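import Pool.Agent.P.MP_38bfeb_an.Fixed
import Pool.Agent.P.MP_38bfeb_an.Phys
import Pool.Agent.P.MP_0afb51_an.Main

/-!
The solution with the self-similar blow-up rate; `τ` is the time left before blow-up.
-/

namespace Pool.Agent.P.MP_38bfeb_an

open Complex Set Filter Topology MeasureTheory Pool.Agent.P.MP_0afb51_an
open scoped ComplexConjugate

variable {L η K M ε : ℝ} {H : ℂ → ℝ → ℂ} {φ : ℂ → ℂ}

theorem hasDerivAt_DuhR (hL : 0 < L) (hH : BW 1 M H) (z : ℂ) {t : ℝ} (ht : 0 < t) :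
    HasDerivAt (DuhR L H z) (DuhRd L H z t) t := by
  refine ((((hasDerivAt_yR L z t).fun_mul (hasDerivAt_J1 hH hL z ht)).fun_add
    ((hasDerivAt_ss z t).fun_mul (hasDerivAt_J2 hH hL z ht))).const_mul
      (z ^ 2 / QQ L z)).congr_deriv ?_
  unfold DuhRd
  ring

theorem hasDerivAt_DuhRd (hL : 0 < L) (hH : BW 1 M H) {z : ℂ} (hz : QQ L z ≠ 0) {t : ℝ}
    (ht : 0 < t) : HasDerivAt (DuhRd L H z) (mu z * DuhR L H z t - z ^ 2 * H z t) t := by
  refine ((((hasDerivAt_yRd L z t).fun_mul (hasDerivAt_J1 hH hL z ht)).fun_add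
    ((hasDerivAt_cc z t).fun_mul (hasDerivAt_J2 hH hL z ht))).const_mul
      (z ^ 2 / QQ L z)).congr_deriv ?_
  have hw := wronskianR L t z
  have hq : z ^ 2 / QQ L z * QQ L z = z ^ 2 := div_mul_cancel₀ _ hz
  unfold DuhR
  linear_combination (z ^ 2 / QQ L z * H z t) * hw - H z t * hq

theorem hasDerivAt_linR (L : ℝ) (φ : ℂ → ℂ) (z : ℂ) (t : ℝ) :
    HasDerivAt (linR L φ z) (linRd L φ z t) t :=
  ((hasDerivAt_yR L z t).div_const _).const_mul _

theorem hasDerivAt_linRd (L : ℝ) (φ : ℂ → ℂ) (z : ℂ) (t : ℝ) :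
    HasDerivAt (linRd L φ z) (mu z * linR L φ z t) t := by
  refine (((hasDerivAt_yRd L z t).div_const (QQ L z)).const_mul (φ z)).congr_deriv ?_
  unfold linR
  ring

theorem BW.ad {j : ℕ} {w : ℂ → ℝ → ℂ} (hw : BW j M w) (L : ℝ) : Ad L fun k t => w k t :=
  Ad.of_WW (hw.cont.comp (f := fun p : ℝ × ℝ => ((p.1 : ℂ), p.2)) (by fun_prop)
    fun _ hp => ⟨mem_univ _, hp.2⟩) hw.nonneg 0 j fun k τ hτ => by simpa using hw.bd k τ hτ.1

theorem ad_linR (hL : 1 ≤ L) (hK : KR L η K) (hφd : DifferentiableOn ℂ φ (strip (1 / 2)))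
    (hε : 0 ≤ ε) (hφ : ∀ z : ℂ, |z.im| ≤ η → ‖φ z‖ ≤ ε * (1 + |z.re|)) :
    Ad L fun k t => linR L φ k t := by
  have hKp := hK.K_pos
  have c1 := (continuous_real_of_strip hφd).comp (continuous_fst (X := ℝ) (Y := ℝ))
  have c2 := (continuous_inv_QQ L).comp (continuous_fst (X := ℝ) (Y := ℝ))
  have c5 : Continuous fun p : ℝ × ℝ => (p.1 : ℂ) := by fun_prop
  refine Ad.of_WW (M := ε * CL L K) ?_ (by unfold CL; positivity) 0 0 fun k τ hτ => ?_
  · simp only [linR, div_eq_mul_inv]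
    exact (c1.mul ((continuous_yR_comp L continuous_snd c5).mul c2)).continuousOn
  · have hk : |(k : ℂ).im| ≤ η := by simpa using hK.eta_pos.le
    simpa using linR_bound hL hK hk hε (hφ _ hk) hτ

theorem ad_linRd (hL : 1 ≤ L) (hK : KR L η K) (hφd : DifferentiableOn ℂ φ (strip (1 / 2)))
    (hε : 0 ≤ ε) (hφ : ∀ z : ℂ, |z.im| ≤ η → ‖φ z‖ ≤ ε * (1 + |z.re|)) :
    Ad L fun k t => linRd L φ k t := by
  have hKp := hK.K_pos
  have c1 := (continuous_real_of_strip hφd).comp (continuous_fst (X := ℝ) (Y := ℝ))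
  have c2 := (continuous_inv_QQ L).comp (continuous_fst (X := ℝ) (Y := ℝ))
  have c5 : Continuous fun p : ℝ × ℝ => (p.1 : ℂ) := by fun_prop
  refine Ad.of_WW (M := ε * CL L K) ?_ (by unfold CL; positivity) 2 0 fun k τ hτ => ?_
  · simp only [linRd, div_eq_mul_inv]
    exact (c1.mul ((continuous_yRd_comp L continuous_snd c5).mul c2)).continuousOn
  · have hk : |(k : ℂ).im| ≤ η := by simpa using hK.eta_pos.le
    simpa using linRd_bound hL hK hk hε (hφ _ hk) hτ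

theorem ad_DuhR (hL : 0 < L) (hK : KR L η K) (hH : BW 1 M H) :
    Ad L (fun k t => DuhR L H k t) ∧ Ad L fun k t => DuhRd L H k t := by
  have hKp := hK.K_pos
  have hM := hH.nonneg
  have c2 := (continuous_inv_QQ L).comp (continuous_fst (X := ℝ) (Y := ℝ))
  have c5 : Continuous fun p : ℝ × ℝ => (p.1 : ℂ) := by fun_prop
  have c3 : ContinuousOn (fun p : ℝ × ℝ => J1 H p.1 p.2) (univ ×ˢ Ioi 0) :=
    (continuousOn_J1 hH hL).comp (f := fun p : ℝ × ℝ => ((p.1 : ℂ), p.2)) (by fun_prop)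
      fun _ hp => ⟨mem_univ _, hp.2⟩
  have c4 : ContinuousOn (fun p : ℝ × ℝ => J2 L H p.1 p.2) (univ ×ˢ Ioi 0) :=
    (continuousOn_J2 hH hL).comp (f := fun p : ℝ × ℝ => ((p.1 : ℂ), p.2)) (by fun_prop)
      fun _ hp => ⟨mem_univ _, hp.2⟩
  have hk : ∀ k : ℝ, |(k : ℂ).im| ≤ η := fun k => by simpa using hK.eta_pos.le
  constructor
  · refine Ad.of_WW (M := CR L K * M) ?_ (by unfold CR; positivity) 0 0 fun k τ hτ => ?_
    · simp only [DuhR, div_eq_mul_inv]
      exact ((c5.pow 2).mul c2).continuousOn.mul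
        (((continuous_yR_comp L continuous_snd c5).continuousOn.mul c3).add
          ((continuous_ss_comp continuous_snd c5).continuousOn.mul c4))
    · simpa using DuhR_bound hK hH (hk k) hτ
  · refine Ad.of_WW (M := CR L K * M) ?_ (by unfold CR; positivity) 2 0 fun k τ hτ => ?_
    · simp only [DuhRd, div_eq_mul_inv]
      exact ((c5.pow 2).mul c2).continuousOn.mul
        (((continuous_yRd_comp L continuous_snd c5).continuousOn.mul c3).add
          ((continuous_cc_comp continuous_snd c5).continuousOn.mul c4))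
    · simpa using DuhRd_bound hK hH (hk k) hτ

/-- The critical datum, singular at `x₀`. -/
noncomputable def datR (c x₀ : ℝ) (z : ℂ) : ℂ := c * jap z * exp (-I * z * x₀)

theorem differentiableOn_datR (c x₀ : ℝ) : DifferentiableOn ℂ (datR c x₀) (strip (1 / 2)) := by
  have h1 : DifferentiableOn ℂ jap (strip (1 / 2)) := by
    refine DifferentiableOn.cpow_const (by fun_prop) fun z hz => Or.inl ?_
    rw [re_one_add_sq]
    have : |z.im| < 1 / 2 := hz
    nlinarith [sq_abs z.im, abs_nonneg z.im, sq_nonneg z.re]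
  unfold datR
  exact (h1.const_mul _).mul (by fun_prop)

theorem norm_datR_le {c : ℝ} (hc : 0 ≤ c) (x₀ : ℝ) {z : ℂ} (hz : |z.im| ≤ 1 / 4) :
    ‖datR c x₀ z‖ ≤ 2 * c * Real.exp |x₀| * (1 + |z.re|) := by
  have h1 := norm_le_one_add hz
  have h2 : ‖jap z‖ ≤ 2 * (1 + |z.re|) := by
    have e1 : ‖jap z‖ ^ 2 ≤ (2 * (1 + |z.re|)) ^ 2 := by
      rw [← norm_pow, jap_sq]
      have e2 := norm_add_le 1 (z ^ 2)
      rw [norm_one, norm_pow] at e2
      have e3 : ‖z‖ ^ 2 ≤ (1 + |z.re|) ^ 2 := by gcongr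
      nlinarith [abs_nonneg z.re]
    exact (abs_le_of_sq_le_sq' e1 (by positivity)).2
  have h3 : ‖exp (-I * z * x₀)‖ ≤ Real.exp |x₀| := by
    rw [Complex.norm_exp]
    apply Real.exp_le_exp.2
    have e1 : (-I * z * x₀).re = z.im * x₀ := by simp
    have e2 := le_abs_self (z.im * x₀)
    rw [abs_mul] at e2
    rw [e1]
    nlinarith [abs_nonneg x₀]
  unfold datR
  rw [norm_mul, norm_mul, Complex.norm_real, Real.norm_eq_abs, abs_of_nonneg hc]
  calc c * ‖jap z‖ * ‖exp (-I * z * x₀)‖ ≤ c * (2 * (1 + |z.re|)) * Real.exp |x₀| := by gcongr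
    _ = _ := by ring

theorem datR_sym (c x₀ k : ℝ) : datR c x₀ (-k) = conj (datR c x₀ k) := by
  have h1 : jap (-k) = jap k := by simp [jap]
  unfold datR
  rw [h1, jap_real]
  simp [← Complex.exp_conj]

theorem cc_eq_cosh (τ : ℝ) {k : ℝ} (hk : 1 ≤ |k|) :
    cc τ k = (Real.cosh (√(k ^ 4 - k ^ 2) * τ) : ℂ) := by
  have hk2 : 1 ≤ k ^ 2 := by nlinarith [sq_abs k, abs_nonneg k]
  have hm : 0 ≤ k ^ 4 - k ^ 2 := by nlinarith
  have h1 : mu k * (τ : ℂ) ^ 2 = ((√(k ^ 4 - k ^ 2) * τ : ℝ) : ℂ) ^ 2 := by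
    have : (√(k ^ 4 - k ^ 2) * τ) ^ 2 = (k ^ 4 - k ^ 2) * τ ^ 2 := by
      rw [mul_pow, Real.sq_sqrt hm]
    rw [← Complex.ofReal_pow (√(k ^ 4 - k ^ 2) * τ), this, mu]
    push_cast
    ring
  rw [cc, h1, Cs_sq, ← Complex.ofReal_cosh]

theorem re_integrandR (L c x₀ : ℝ) {k : ℝ} (hk : 1 ≤ |k|) {τ : ℝ} (hτ : τ ∈ Icc 0 L)
    (hc : 0 ≤ c) : c * |k| * (Real.exp (-(k ^ 2 * τ)) / 4) ≤
      (exp (I * k * x₀) * linR L (datR c x₀) k τ).re := by
  set l := √(k ^ 4 - k ^ 2) with hl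
  have hl0 : 0 ≤ l := Real.sqrt_nonneg _
  have hlk : l ≤ k ^ 2 := by
    rw [hl, Real.sqrt_le_left (sq_nonneg k)]
    nlinarith [sq_nonneg k]
  have h1 : exp (I * k * x₀) * linR L (datR c x₀) k τ =
      ((c * √(1 + k ^ 2) * ((Real.cosh (l * L) * Real.cosh (l * (L - τ)) + Real.cosh (l * τ)) /
        (1 + Real.cosh (l * L) ^ 2)) : ℝ) : ℂ) := by
    have e : exp (I * k * x₀) * exp (-I * k * x₀) = 1 := by
      rw [← Complex.exp_add]; simp
    unfold linR datR yR QQ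
    rw [jap_real, cc_eq_cosh L hk, cc_eq_cosh (L - τ) hk, cc_eq_cosh τ hk, ← hl]
    simp only [ofReal_mul, ofReal_div, ofReal_add, ofReal_pow, ofReal_one]
    linear_combination (c * (√(1 + k ^ 2) : ℝ) *
      (((Real.cosh (l * L) : ℝ) * (Real.cosh (l * (L - τ)) : ℝ) + (Real.cosh (l * τ) : ℝ)) /
        (1 + (Real.cosh (l * L) : ℝ) ^ 2) : ℂ)) * e
  rw [h1, ofReal_re]
  have h2 : |k| ≤ √(1 + k ^ 2) := Real.abs_le_sqrt (by linarith)
  have a1 := Real.one_le_cosh (l * L)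
  have a2 := Real.cosh_pos (l * τ)
  have a3 : Real.cosh (l * L) ≤ Real.exp (l * L) := by
    rw [Real.cosh_eq]
    have : Real.exp (-(l * L)) ≤ Real.exp (l * L) :=
      Real.exp_le_exp.2 (by nlinarith [hτ.1.trans hτ.2])
    linarith
  have a4 : Real.exp (l * (L - τ)) / 2 ≤ Real.cosh (l * (L - τ)) := by
    rw [Real.cosh_eq]
    linarith [Real.exp_pos (-(l * (L - τ)))]
  have a5 : Real.exp (-(k ^ 2 * τ)) * Real.exp (l * L) ≤ Real.exp (l * (L - τ)) := by
    rw [← Real.exp_add]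
    apply Real.exp_le_exp.2
    nlinarith [hτ.1]
  have a6 := Real.exp_pos (-(k ^ 2 * τ))
  have h3 : Real.exp (-(k ^ 2 * τ)) / 4 ≤
      (Real.cosh (l * L) * Real.cosh (l * (L - τ)) + Real.cosh (l * τ)) /
        (1 + Real.cosh (l * L) ^ 2) := by
    rw [div_le_div_iff₀ (by norm_num) (by positivity)]
    have b1 : Real.exp (-(k ^ 2 * τ)) * Real.cosh (l * L) ≤ 2 * Real.cosh (l * (L - τ)) := by
      nlinarith [mul_le_mul_of_nonneg_left a3 a6.le]
    have b2 : 1 + Real.cosh (l * L) ^ 2 ≤ 2 * Real.cosh (l * L) ^ 2 := by nlinarith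
    nlinarith [mul_le_mul_of_nonneg_left b2 a6.le,
      mul_le_mul_of_nonneg_left b1 (by linarith : 0 ≤ Real.cosh (l * L))]
  gcongr

theorem lower_lin (hK : KR L η K) {c x₀ : ℝ} (hc : 0 ≤ c)
    (hA : Ad L fun k t => linR L (datR c x₀) k t) {τ : ℝ} (hτ : τ ∈ Ioo 0 L) (hτ1 : τ ≤ 1) :
    c * Real.exp (-4) / 4 / τ - 8 * c * Real.exp |x₀| * K ≤
      (FT (fun k t => linR L (datR c x₀) k t) x₀ τ).re := by
  have hKp := hK.K_pos
  let h : ℝ → ℝ := fun k => (exp (I * k * x₀) * linR L (datR c x₀) k τ).re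
  have hint := hA.integrable x₀ hτ
  have hint' : Integrable h := hint.re
  have hp := Real.sqrt_pos.2 hτ.1
  have hp2 := Real.sq_sqrt hτ.1.le
  have hp1 : √τ ≤ 1 := Real.sqrt_le_one.2 hτ1
  have hq : 1 ≤ (√τ)⁻¹ := (one_le_inv₀ hp).2 hp1
  have hτc : τ ∈ Icc 0 L := Ioo_subset_Icc_self hτ
  have e1 : (FT (fun k t => linR L (datR c x₀) k t) x₀ τ).re = ∫ k, h k := by
    have := integral_re hint
    simp only [RCLike.re_to_complex] at this
    exact this.symm
  have e2 := integral_add_compl (measurableSet_Icc (a := (-1 : ℝ)) (b := 1)) hint'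
  have e3 : ‖∫ k in Icc (-1 : ℝ) 1, h k‖ ≤
      4 * c * Real.exp |x₀| * K * volume.real (Icc (-1 : ℝ) 1) := by
    refine norm_setIntegral_le_of_norm_le_const (by simp) fun k hk => ?_
    have hk' : |(k : ℂ).im| ≤ η := by simpa using hK.eta_pos.le
    have h1 := norm_datR_le hc x₀ (hk'.trans hK.eta_le)
    have h2 := hK.bR k hk' τ hτc
    have h3 : Real.exp (-((lam k).re * τ)) ≤ 1 :=
      Real.exp_le_one_iff.2 (by nlinarith [lam_re_nonneg k, hτ.1])
    have h4 : |k| ≤ 1 := abs_le.2 hk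
    rw [ofReal_re] at h1
    refine (Complex.abs_re_le_norm _).trans ?_
    rw [norm_mul, norm_exp_I_mul, one_mul, linR, norm_mul]
    calc ‖datR c x₀ k‖ * ‖yR L τ k / QQ L k‖
        ≤ (2 * c * Real.exp |x₀| * (1 + 1)) * (K * 1) := by
          gcongr
          · exact h1.trans (by gcongr)
          · exact h2.trans (by gcongr)
      _ = _ := by ring
  have e4 : volume.real (Icc (-1 : ℝ) 1) = 2 := by
    rw [Real.volume_real_Icc]; norm_num
  have e5 : ∫ k in Ioc (√τ)⁻¹ (2 * (√τ)⁻¹), h k ≤ ∫ k in (Icc (-1 : ℝ) 1)ᶜ, h k := by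
    refine setIntegral_mono_set hint'.integrableOn ?_ (LE.le.eventuallyLE ?_)
    · refine (ae_restrict_iff' measurableSet_Icc.compl).2 (Eventually.of_forall fun k hk => ?_)
      have hk1 : 1 ≤ |k| := by
        by_contra hlt
        exact hk (abs_le.1 (not_le.1 hlt).le)
      exact le_trans (by positivity) (re_integrandR L c x₀ hk1 hτc hc)
    · intro k hk hk'
      linarith [hk.1, hk'.2]
  have e6 : c * (√τ)⁻¹ * (Real.exp (-4) / 4) * volume.real (Ioc (√τ)⁻¹ (2 * (√τ)⁻¹)) ≤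
      ∫ k in Ioc (√τ)⁻¹ (2 * (√τ)⁻¹), h k := by
    refine setIntegral_ge_of_const_le_real measurableSet_Ioc (by simp) (fun k hk => ?_)
      hint'.integrableOn
    have hk0 : 0 < k := lt_of_lt_of_le (by positivity) hk.1.le
    have hk1 : 1 ≤ |k| := by rw [abs_of_pos hk0]; linarith [hk.1]
    refine le_trans ?_ (re_integrandR L c x₀ hk1 hτc hc)
    rw [abs_of_pos hk0]
    have h4 : k ^ 2 * τ ≤ 4 := by
      have b1 : k * √τ ≤ 2 := by
        have := mul_le_mul_of_nonneg_right hk.2 hp.le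
        rwa [mul_assoc, inv_mul_cancel₀ hp.ne', mul_one] at this
      have b2 : (k * √τ) ^ 2 ≤ 2 ^ 2 := by gcongr
      rw [mul_pow, hp2] at b2
      linarith
    gcongr
    exact hk.1.le
  have e7 : volume.real (Ioc (√τ)⁻¹ (2 * (√τ)⁻¹)) = (√τ)⁻¹ := by
    rw [Real.volume_real_Ioc, max_eq_left (by linarith)]; ring
  have e8 : c * (√τ)⁻¹ * (Real.exp (-4) / 4) * (√τ)⁻¹ = c * Real.exp (-4) / 4 / τ := by
    conv_rhs => rw [← hp2]
    field_simp
  rw [e7, e8] at e6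
  rw [e4, Real.norm_eq_abs] at e3
  rw [e1, ← e2]
  linarith [neg_abs_le (∫ k in Icc (-1 : ℝ) 1, h k)]

theorem exists_solutionR (x₀ : ℝ) (hL : 1 < L) :
    ∃ u v p : ℕ → ℝ × ℝ → ℂ, Chain L u v p ∧
      (∀ x, ∀ t ∈ Ioo 0 L, (u 0 (x, t)).im = 0) ∧
      (∀ δ : ℝ, 0 < δ → ∀ i N : ℕ, ∃ C, ∀ x, ∀ τ ∈ Icc δ L, (1 + |x|) ^ N * ‖u i (x, τ)‖ ≤ C) ∧
      ∃ τ₀ c₁ c₂ : ℝ, 0 < τ₀ ∧ 0 < c₁ ∧ 0 < c₂ ∧ ∀ τ ∈ Ioc 0 τ₀,
        c₁ / τ ≤ |(u 0 (x₀, τ)).re| ∧ |(u 0 (x₀, τ)).re| ≤ c₂ / τ := by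
  have hL0 : 0 < L := by linarith
  obtain ⟨η, K, hK⟩ := exists_KR hL.le
  obtain ⟨ε₀, hε₀, hfix⟩ := exists_fixedR hL.le hK
  have hKp := hK.K_pos
  have hCR : 0 < CR L K := by unfold CR; positivity
  have hCL : 0 < CL L K := by unfold CL; positivity
  set E := Real.exp |x₀| with hE
  have hEp : 0 < E := Real.exp_pos _
  set c : ℝ := min (ε₀ / (2 * E))
    (Real.exp (-4) / 16 / (128 * Real.pi ^ 2 * CR L K * CL L K ^ 2 * E ^ 2)) with hc
  have hcpos : 0 < c := by positivity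
  have hc1 : 2 * c * E ≤ ε₀ := by
    have : c ≤ ε₀ / (2 * E) := min_le_left _ _
    rw [le_div_iff₀ (by positivity)] at this
    linarith
  have hc2 : c * (128 * Real.pi ^ 2 * CR L K * CL L K ^ 2 * E ^ 2) ≤ Real.exp (-4) / 16 := by
    have : c ≤ Real.exp (-4) / 16 / (128 * Real.pi ^ 2 * CR L K * CL L K ^ 2 * E ^ 2) :=
      min_le_right _ _
    rwa [le_div_iff₀ (by positivity)] at this
  have hφd := differentiableOn_datR c x₀
  have hφb : ∀ z : ℂ, |z.im| ≤ η → ‖datR c x₀ z‖ ≤ 2 * c * E * (1 + |z.re|) :=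
    fun z hz => norm_datR_le hcpos.le x₀ (hz.trans hK.eta_le)
  obtain ⟨w, hw, hhol, hsym, heq⟩ :=
    hfix (2 * c * E) (by positivity) hc1 (datR c x₀) hφd hφb (datR_sym c x₀)
  have hH := hw.conv hw
  set H := conv w w with hHdef
  set φ := datR c x₀ with hφ
  let wr : ℝ → ℝ → ℂ := fun k t => w k t
  let Hr : ℝ → ℝ → ℂ := fun k t => H k t
  let wt : ℝ → ℝ → ℂ := fun k t => linRd L φ k t + DuhRd L H k t
  have Aw : Ad L wr := hw.ad L
  have AH : Ad L Hr := hH.ad L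
  have Alin := ad_linR hL.le hK hφd (by positivity) hφb
  obtain ⟨AD, ADd⟩ := ad_DuhR hL0 hK hH
  have At : Ad L wt := (ad_linRd hL.le hK hφd (by positivity) hφb).add ADd
  have dw : ∀ k, ∀ t ∈ Ioo 0 L, HasDerivAt (wr k) (wt k t) t := by
    intro k t ht
    refine ((hasDerivAt_linR L φ k t).fun_add
      (hasDerivAt_DuhR hL0 hH k ht.1)).congr_of_eventuallyEq ?_
    filter_upwards [isOpen_Ioo.mem_nhds ht] with s hs
    exact heq k s (Ioo_subset_Ioc_self hs)
  have dwt : ∀ k, ∀ t ∈ Ioo 0 L, HasDerivAt (wt k) (mu k * wr k t - (k : ℂ) ^ 2 * Hr k t) t := by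
    intro k t ht
    refine ((hasDerivAt_linRd L φ k t).fun_add (hasDerivAt_DuhRd hL0 hH
      (hK.ne k (by simpa using hK.eta_pos.le)) ht.1)).congr_deriv ?_
    simp only [wr, Hr]
    rw [heq k t (Ioo_subset_Ioc_self ht)]
    ring
  refine ⟨fun i z => FT (Xp i wr) z.1 z.2, fun i z => FT (Xp i wt) z.1 z.2,
    fun i z => FT (Xp i Hr) z.1 z.2, ⟨fun i => (Aw.mulXp i).continuousOn_FT,
      fun i => (At.mulXp i).continuousOn_FT, fun i x t ht => Aw.hasDerivAt_x i x ht,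
      fun i x t ht => At.hasDerivAt_x i x ht, fun i x t ht => AH.hasDerivAt_x i x ht,
      fun i x t ht => ?_, fun i x t ht => ?_, fun x t ht => ?_⟩,
    fun x t _ => ?_, fun δ hδ i N => ?_, ?_⟩
  · exact (Aw.mulXp i).hasDerivAt_t (At.mulXp i) (fun k s hs => (dw k s hs).const_mul _) x ht
  · have A1 := Aw.mulXp (i + 4)
    have A2 := Aw.mulXp (i + 2)
    have A3 := AH.mulXp (i + 2)
    have h := (At.mulXp i).hasDerivAt_t ((A1.add A2).add A3) (fun k s hs => ?_) x ht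
    · rw [FT_add' (A1.add A2) A3 x ht, FT_add' A1 A2 x ht] at h
      exact h
    · refine ((dwt k s hs).const_mul ((I * k) ^ i)).congr_deriv ?_
      have e2 : (I * k : ℂ) ^ 2 = -(k : ℂ) ^ 2 := by rw [mul_pow, I_sq]; ring
      have e4 : (I * k : ℂ) ^ 4 = (k : ℂ) ^ 4 := by rw [mul_pow, I_pow_four]; ring
      unfold Xp mu
      rw [pow_add, pow_add, e2, e4]
      ring
  · simp only [FT_Xp_zero]
    refine FT_conv' Aw ht (fun k => ?_) x
    simp only [Hr, wr, hHdef, conv]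
    push_cast
    rfl
  · simp only [FT_Xp_zero]
    refine conj_eq_iff_im.1 (conj_FT (fun k => ?_) x)
    simp only [wr]
    push_cast
    exact hsym t k
  · obtain ⟨C, hC⟩ := decay' hK.eta_pos hK.eta_le (Real.sqrt_pos.2 hδ) i N
    refine ⟨C * (2 * (2 * c * E * CL L K) * (√δ)⁻¹), fun x τ hτ => ?_⟩
    have hτ0 := hδ.trans_le hτ.1
    refine hC (fun z => w z τ) _ (by positivity) (hhol τ ⟨hτ0, hτ.2⟩) (fun z => ?_) x
    refine (hw.bd0 z hτ0).trans ?_
    rw [mul_assoc _ (√δ)⁻¹]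
    exact mul_le_mul_of_nonneg_left (WW_le_exp hδ hτ.1 _) (by positivity)
  · refine ⟨min 1 (Real.exp (-4) / (128 * E * K)), c * Real.exp (-4) / 8,
      2 * (2 * c * E * CL L K) * Real.pi, by positivity, by positivity, by positivity,
      fun τ hτ => ?_⟩
    have hτ1 : τ ≤ 1 := hτ.2.trans (min_le_left _ _)
    have hτ2 : τ * (128 * E * K) ≤ Real.exp (-4) := by
      have := hτ.2.trans (min_le_right _ _)
      rwa [le_div_iff₀ (by positivity)] at this
    have hτI : τ ∈ Ioo 0 L := ⟨hτ.1, by linarith⟩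
    have hτ0 := hτ.1
    simp only [FT_Xp_zero]
    constructor
    · have e : FT wr x₀ τ = FT (fun k t => linR L φ k t) x₀ τ +
          FT (fun k t => DuhR L H k t) x₀ τ := by
        rw [← FT_add' Alin AD x₀ hτI]
        unfold FT
        congr 1
        funext k
        simp only [wr]
        rw [heq k τ (Ioo_subset_Ioc_self hτI)]
      have h1 := lower_lin hK hcpos.le Alin hτI hτ1
      have h2 := norm_FT_le (f := fun k t => DuhR L H k t)
        (M := CR L K * (8 * Real.pi * (2 * (2 * c * E * CL L K)) * (2 * (2 * c * E * CL L K))))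
        (by positivity) hτ.1 (fun k => by
          simpa using DuhR_bound hK hH (z := k) (by simpa using hK.eta_pos.le)
            (Ioo_subset_Ioc_self hτI)) x₀
      have h3 := Complex.abs_re_le_norm (FT (fun k t => DuhR L H k t) x₀ τ)
      have h4 := neg_abs_le (FT (fun k t => DuhR L H k t) x₀ τ).re
      have h5 : CR L K * (8 * Real.pi * (2 * (2 * c * E * CL L K)) * (2 * (2 * c * E * CL L K))) *
          Real.pi / τ ≤ c * Real.exp (-4) / 16 / τ := by
        gcongr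
        nlinarith [mul_le_mul_of_nonneg_left hc2 hcpos.le]
      have h6 : 8 * c * E * K ≤ c * Real.exp (-4) / 16 / τ := by
        rw [le_div_iff₀ hτ.1]
        nlinarith [mul_le_mul_of_nonneg_left hτ2 hcpos.le]
      have h7 : c * Real.exp (-4) / 8 / τ =
          c * Real.exp (-4) / 4 / τ - c * Real.exp (-4) / 16 / τ - c * Real.exp (-4) / 16 / τ := by
        ring
      refine le_trans ?_ (le_abs_self _)
      rw [e, add_re]
      linarith
    · refine (Complex.abs_re_le_norm _).trans ?_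
      exact norm_FT_le (by positivity) hτ.1 (fun k => by simpa using hw.bd0 k hτ.1) x₀

end Pool.Agent.P.MP_38bfeb_an
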